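import Pool.Agent.H70.SqG.PowB

/-!
# The group itself, its square, and its powers
-/

set_option autoImplicit false
open Filter Function Topology

namespace Pool.Agent.H70.SqG

variable {β : ℕ∞}

theorem cp_self (hβ : 2 ≤ β) : CPp (GG β) := by
  have h1 : CPp (Unit → GG β) := by
    apply cp_pow
    rw [ENat.card_eq_coe_fintype_card, Fintype.card_unit]
    exact lt_of_lt_of_le (by exact_mod_cast Nat.one_lt_two) hβ
  refine cp_image (f := fun x : Unit → GG β => x ()) (continuous_apply _) ?_ h1
  intro g
  exact ⟨fun _ => g, rfl⟩

theorem not_cp_sq : ¬ CPp (GG 2 × GG 2) := by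
  intro h
  have h1 : CPp (Bool → GG 2) := by
    refine cp_image (f := fun x : GG 2 × GG 2 => fun b : Bool => if b = true then x.1 else x.2)
      ?_ ?_ h
    · refine continuous_pi fun b => ?_
      cases b
      · exact continuous_snd
      · exact continuous_fst
    · intro y
      refine ⟨(y true, y false), ?_⟩
      funext b
      cases b
      · rfl
      · rfl
  have h2 := (cp_iff (β := 2) one_le_two Bool).mp h1
  rw [ENat.card_eq_coe_fintype_card, Fintype.card_bool] at h2
  exact lt_irrefl _ h2

end Pool.Agent.H70.SqG
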