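import Pool.Agent.H70.SqG.Ult

/-!
# The group `GG β` and the family of homomorphisms

`GG β` is the free Boolean group on `Om` and on all pairs `(t, e)`, where `t` is a set of less than `β` selectors (maps
`ℕ → Om` meeting each block at most once) with disjoint ranges and `e ∈ t`. A set `X ⊆ Om` gives a
homomorphism `chi X : GG β → ZMod 2`, which is the indicator function on `Om` and its limit along `e (pU (lab t))` at `(t, e)`.
The topology of `GG β` is generated by the homomorphisms `chi (Phi T)`, `T` a task.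
-/

set_option autoImplicit false
open Filter Function Topology

namespace Pool.Agent.H70.SqG

/-- The base set: a disjoint union of finite blocks. -/
abbrev Om : Type := Σ k : ℕ, (((Fin k → Bool) → Bool) × Fin ((k + 1) * (k + 1) + 1))

/-- The number of the block. -/
def bl (x : Om) : ℕ := x.1

instance : Infinite Om := Infinite.of_injective
  (fun k : ℕ => (⟨k, (fun _ => false, ⟨0, by positivity⟩)⟩ : Om)) (fun _ _ h => congrArg Sigma.fst h)

/-- Selectors. -/
abbrev Sel : Type := {e : ℕ → Om // Injective (fun a => bl (e a))}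

open Cardinal in
lemma card_Sel : #Sel ≤ 𝔠 := by
  have hOm : #Om ≤ ℵ₀ := Cardinal.mk_le_aleph0
  refine (Cardinal.mk_subtype_le _).trans ?_
  rw [← Cardinal.power_def]
  calc #Om ^ #ℕ ≤ ℵ₀ ^ #ℕ := Cardinal.power_le_power_right hOm
    _ = 𝔠 := by rw [Cardinal.mk_nat, Cardinal.aleph0_power_aleph0]

open Cardinal in
lemma card_Fin : #(Finset Sel) ≤ 𝔠 := by
  classical
  have h1 : Injective (Finset.toList : Finset Sel → List Sel) := by
    intro s t h
    rw [← Finset.toList_toFinset s, ← Finset.toList_toFinset t, h]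
  calc #(Finset Sel) ≤ #(List Sel) := Cardinal.mk_le_of_injective h1
    _ ≤ max ℵ₀ #Sel := Cardinal.mk_list_le_max _
    _ ≤ 𝔠 := max_le Cardinal.aleph0_le_continuum card_Sel

open Cardinal in
lemma exists_lab : ∃ f : Finset Sel → ℕ → Bool, Injective f := by
  have h3 : #(Finset Sel) ≤ #(ℕ → Bool) := by
    calc #(Finset Sel) ≤ 𝔠 := card_Fin
      _ = #(ℕ → Bool) := by
        rw [← Cardinal.power_def, Cardinal.mk_bool, Cardinal.mk_nat, Cardinal.two_power_aleph0]
  obtain ⟨f⟩ := Cardinal.le_def _ _ |>.mp h3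
  exact ⟨f, f.injective⟩

/-- Labels of finite sets of selectors. -/
noncomputable def lab : Finset Sel → ℕ → Bool := exists_lab.choose

lemma lab_inj : Injective lab := exists_lab.choose_spec

/-- The ranges are pairwise disjoint. -/
def DR (t : Finset Sel) : Prop :=
  ∀ e ∈ t, ∀ e' ∈ t, e ≠ e' → Disjoint (Set.range e.1) (Set.range e'.1)

/-- The generators outside `Om`. -/
abbrev Jt (β : ℕ∞) : Type :=
  {j : Finset Sel × Sel // j.2 ∈ j.1 ∧ ((j.1.card : ℕ∞) < β ∧ DR j.1)}

/-- The generators. -/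
abbrev Io (β : ℕ∞) : Type := Om ⊕ Jt β

variable {β : ℕ∞}

/-- The ultrafilters on `Om` belonging to the generators. -/
noncomputable def rho : Io β → Ultrafilter Om
  | Sum.inl y => pure y
  | Sum.inr j => (pU (lab j.1.1)).map j.1.2.1

lemma mem_rho_inl {X : Set Om} {y : Om} : X ∈ rho (Sum.inl y : Io β) ↔ y ∈ X := Iff.rfl

lemma mem_rho_inr {X : Set Om} {j : Jt β} :
    X ∈ rho (Sum.inr j) ↔ {a | j.1.2.1 a ∈ X} ∈ pU (lab j.1.1) := Iff.rfl

lemma sel_inj (e : Sel) : Injective e.1 := fun _ _ h => e.2 (congrArg bl h)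

/-- The group. -/
abbrev GG (β : ℕ∞) : Type := Io β →₀ ZMod 2

lemma zmod2 (x : ZMod 2) : x = 0 ∨ x = 1 := by
  fin_cases x
  · exact Or.inl rfl
  · exact Or.inr rfl

open Classical in
/-- The homomorphism of a set. -/
noncomputable def chi (X : Set Om) : GG β →+ ZMod 2 :=
  Finsupp.liftAddHom (fun v => if X ∈ rho v then AddMonoidHom.id (ZMod 2) else 0)

open Classical in
lemma chi_single (X : Set Om) (v : Io β) (a : ZMod 2) :
    chi X (Finsupp.single v a) = if X ∈ rho v then a else 0 := by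
  unfold chi
  rw [Finsupp.liftAddHom_apply_single]
  split_ifs <;> rfl

open Classical in
lemma chi_apply (X : Set Om) (g : GG β) :
    chi X g = ∑ v ∈ g.support, if X ∈ rho v then g v else 0 := by
  conv_lhs => rw [← Finsupp.sum_single g]
  unfold Finsupp.sum
  rw [map_sum]
  exact Finset.sum_congr rfl fun x _ => chi_single X x _

lemma chi_zero {X : Set Om} {g : GG β} (h : ∀ v ∈ g.support, X ∉ rho v) : chi X g = 0 := by
  classical
  rw [chi_apply]
  exact Finset.sum_eq_zero fun v hv => if_neg (h v hv)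

lemma chi_one {X : Set Om} {g : GG β} {u : Io β} (hu : g u ≠ 0) (hX : X ∈ rho u)
    (h : ∀ v ∈ g.support, v ≠ u → X ∉ rho v) : chi X g = 1 := by
  classical
  rw [chi_apply, Finset.sum_eq_single u]
  · rw [if_pos hX]
    exact (zmod2 (g u)).resolve_left hu
  · intro v hv hne
    exact if_neg (h v hv hne)
  · intro hn
    exact absurd (Finsupp.mem_support_iff.mpr hu) hn

lemma chi_union {X Y : Set Om} (h : Disjoint X Y) (g : GG β) :
    chi (X ∪ Y) g = chi X g + chi Y g := by
  classical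
  rw [chi_apply, chi_apply, chi_apply, ← Finset.sum_add_distrib]
  refine Finset.sum_congr rfl fun v _ => ?_
  by_cases hX : X ∈ rho v
  · have hY : Y ∉ rho v := by
      intro hY
      have h1 := (rho v).inter_sets hX hY
      rw [Set.disjoint_iff_inter_eq_empty.mp h] at h1
      exact (rho v).empty_notMem h1
    rw [if_pos hX, if_neg hY, if_pos (Ultrafilter.union_mem_iff.mpr (Or.inl hX)), add_zero]
  · by_cases hY : Y ∈ rho v
    · rw [if_neg hX, if_pos hY, if_pos (Ultrafilter.union_mem_iff.mpr (Or.inr hY)), zero_add]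
    · rw [if_neg hX, if_neg hY, if_neg, zero_add]
      intro hXY
      rcases Ultrafilter.union_mem_iff.mp hXY with h | h
      · exact hX h
      · exact hY h

lemma chi_empty (g : GG β) : chi ∅ g = 0 := chi_zero fun v _ => (rho v).empty_notMem

section modification

variable (O : ℕ → Set Om) (g : ℕ → GG β) (t : Set Om)

/-- The recursively chosen values. -/
noncomputable def eps (m : ℕ) : ZMod 2 :=
  1 + chi (t \ ⋃ n, O n) (g m) + ∑ n : Fin m, eps n.1 * chi (O n.1) (g m)
termination_by m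
decreasing_by exact n.2

/-- The modified set. -/
def phi : Set Om := {y | (y ∈ t ∧ y ∉ ⋃ n, O n) ∨ ∃ n, eps O g t n = 1 ∧ y ∈ O n}

variable {O g t}

lemma chi_part (hO : Pairwise (Disjoint on O)) (k : ℕ) (h : GG β) :
    chi {y | ∃ n < k, eps O g t n = 1 ∧ y ∈ O n} h =
      ∑ n ∈ Finset.range k, eps O g t n * chi (O n) h := by
  induction k with
  | zero =>
    have h1 : {y : Om | ∃ n < 0, eps O g t n = 1 ∧ y ∈ O n} = ∅ := by
      ext y
      simp
    rw [h1, chi_empty, Finset.sum_range_zero]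
  | succ k ih =>
    rw [Finset.sum_range_succ, ← ih]
    rcases zmod2 (eps O g t k) with h0 | h0
    · have h1 : {y : Om | ∃ n < k + 1, eps O g t n = 1 ∧ y ∈ O n} =
          {y : Om | ∃ n < k, eps O g t n = 1 ∧ y ∈ O n} := by
        ext y
        constructor
        · rintro ⟨n, hn, hn1, hy⟩
          have hnk : n ≠ k := by
            rintro rfl
            rw [h0] at hn1
            exact zero_ne_one hn1
          exact ⟨n, by omega, hn1, hy⟩
        · rintro ⟨n, hn, hn1, hy⟩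
          exact ⟨n, by omega, hn1, hy⟩
      rw [h1, h0, zero_mul, add_zero]
    · have h1 : {y : Om | ∃ n < k + 1, eps O g t n = 1 ∧ y ∈ O n} =
          {y : Om | ∃ n < k, eps O g t n = 1 ∧ y ∈ O n} ∪ O k := by
        ext y
        constructor
        · rintro ⟨n, hn, hn1, hy⟩
          by_cases hnk : n = k
          · subst hnk
            exact Or.inr hy
          · exact Or.inl ⟨n, by omega, hn1, hy⟩
        · rintro (⟨n, hn, hn1, hy⟩ | hy)
          · exact ⟨n, by omega, hn1, hy⟩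
          · exact ⟨k, by omega, h0, hy⟩
      rw [h1, chi_union, h0, one_mul]
      rw [Set.disjoint_left]
      rintro y ⟨n, hn, -, hy⟩ hy'
      exact Set.disjoint_left.mp (hO (ne_of_lt hn)) hy hy'

/-- The evaluation lemma. -/
theorem chi_phi (hO : Pairwise (Disjoint on O)) {m : ℕ} (h1 : chi (O m) (g m) = 1)
    (h2 : ∀ v ∈ (g m).support, {y | ∃ n, m < n ∧ y ∈ O n} ∉ rho v) :
    chi (phi O g t) (g m) = 1 := by
  have hdec : phi O g t = ((t \ ⋃ n, O n) ∪ {y | ∃ n < m + 1, eps O g t n = 1 ∧ y ∈ O n}) ∪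
      {y | ∃ n, m < n ∧ eps O g t n = 1 ∧ y ∈ O n} := by
    ext y
    constructor
    · rintro (h | ⟨n, hn, hy⟩)
      · exact Or.inl (Or.inl h)
      · by_cases hmn : m < n
        · exact Or.inr ⟨n, hmn, hn, hy⟩
        · exact Or.inl (Or.inr ⟨n, by omega, hn, hy⟩)
    · rintro ((h | ⟨n, -, hn, hy⟩) | ⟨n, -, hn, hy⟩)
      · exact Or.inl h
      · exact Or.inr ⟨n, hn, hy⟩
      · exact Or.inr ⟨n, hn, hy⟩
  have hd1 : Disjoint (t \ ⋃ n, O n) {y | ∃ n < m + 1, eps O g t n = 1 ∧ y ∈ O n} := by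
    rw [Set.disjoint_left]
    rintro y ⟨-, hy⟩ ⟨n, -, -, hy'⟩
    exact hy (Set.mem_iUnion.mpr ⟨n, hy'⟩)
  have hd2 : Disjoint ((t \ ⋃ n, O n) ∪ {y | ∃ n < m + 1, eps O g t n = 1 ∧ y ∈ O n})
      {y | ∃ n, m < n ∧ eps O g t n = 1 ∧ y ∈ O n} := by
    rw [Set.disjoint_left]
    rintro y (⟨-, hy⟩ | ⟨n, hn, -, hy⟩) ⟨n', hn', -, hy'⟩
    · exact hy (Set.mem_iUnion.mpr ⟨n', hy'⟩)
    · have hne : n ≠ n' := by omega
      exact Set.disjoint_left.mp (hO hne) hy hy'
  have h3 : chi {y | ∃ n, m < n ∧ eps O g t n = 1 ∧ y ∈ O n} (g m) = 0 := by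
    apply chi_zero
    intro v hv hmem
    refine h2 v hv ((rho v).sets_of_superset hmem ?_)
    rintro y ⟨n, hn, -, hy⟩
    exact ⟨n, hn, hy⟩
  rw [hdec, chi_union hd2, chi_union hd1, h3, add_zero, chi_part hO, Finset.sum_range_succ, h1,
    mul_one]
  have h4 : eps O g t m = 1 + chi (t \ ⋃ n, O n) (g m) +
      ∑ n ∈ Finset.range m, eps O g t n * chi (O n) (g m) := by
    conv_lhs => rw [eps]
    rw [Finset.sum_range]
  rw [h4]
  generalize chi (t \ ⋃ n, O n) (g m) = x
  generalize ∑ n ∈ Finset.range m, eps O g t n * chi (O n) (g m) = z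
  have h5 : ∀ x z : ZMod 2, x + (z + (1 + x + z)) = 1 := by decide
  exact h5 x z

end modification

/-- Thin sets. -/
def Thin (C : Set Om) : Prop := ∃ c : ℕ → ℕ → Om, ∀ x ∈ C, ∃ j ≤ bl x, c j (bl x) = x

/-- Tasks. -/
abbrev Task (β : ℕ∞) : Type := {T : (ℕ → Set Om) × (ℕ → GG β) // Thin (⋃ n, T.1 n)}

open Cardinal in
lemma exists_xi (β : ℕ∞) : ∃ ξ : Task β → ℕ → Bool, Injective ξ := by
  have hOm : #Om ≤ ℵ₀ := Cardinal.mk_le_aleph0
  have hJt : #(Jt β) ≤ 𝔠 := by
    refine (Cardinal.mk_subtype_le _).trans ?_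
    rw [Cardinal.mk_prod, Cardinal.lift_id, Cardinal.lift_id]
    calc #(Finset Sel) * #Sel ≤ 𝔠 * 𝔠 := mul_le_mul' card_Fin card_Sel
      _ = 𝔠 := Cardinal.continuum_mul_self
  have hIo : #(Io β) ≤ 𝔠 := by
    rw [Cardinal.mk_sum, Cardinal.lift_id, Cardinal.lift_id]
    calc #Om + #(Jt β) ≤ 𝔠 + 𝔠 := add_le_add (hOm.trans Cardinal.aleph0_le_continuum) hJt
      _ = 𝔠 := Cardinal.continuum_add_self
  have hGG : #(GG β) ≤ 𝔠 := by
    rw [Cardinal.mk_finsupp_of_infinite]
    refine max_le hIo ?_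
    exact (Cardinal.lt_aleph0_of_finite (ZMod 2)).le.trans Cardinal.aleph0_le_continuum
  have h1 : #(ℕ → Set Om) ≤ 𝔠 := by
    rw [← Cardinal.power_def, Cardinal.mk_set]
    calc (2 ^ #Om) ^ #ℕ ≤ (2 ^ ℵ₀) ^ #ℕ :=
          Cardinal.power_le_power_right (Cardinal.power_le_power_left two_ne_zero hOm)
      _ = 𝔠 := by rw [Cardinal.mk_nat, Cardinal.two_power_aleph0, Cardinal.continuum_power_aleph0]
  have h2 : #(ℕ → GG β) ≤ 𝔠 := by
    rw [← Cardinal.power_def]
    calc #(GG β) ^ #ℕ ≤ 𝔠 ^ #ℕ := Cardinal.power_le_power_right hGG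
      _ = 𝔠 := by rw [Cardinal.mk_nat, Cardinal.continuum_power_aleph0]
  have h3 : #(Task β) ≤ #(ℕ → Bool) := by
    refine (Cardinal.mk_subtype_le _).trans ?_
    rw [Cardinal.mk_prod, Cardinal.lift_id, Cardinal.lift_id]
    calc #(ℕ → Set Om) * #(ℕ → GG β) ≤ 𝔠 * 𝔠 := mul_le_mul' h1 h2
      _ = 𝔠 := Cardinal.continuum_mul_self
      _ = #(ℕ → Bool) := by
        rw [← Cardinal.power_def, Cardinal.mk_bool, Cardinal.mk_nat, Cardinal.two_power_aleph0]
  obtain ⟨f⟩ := Cardinal.le_def _ _ |>.mp h3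
  exact ⟨f, f.injective⟩

/-- Codes of tasks. -/
noncomputable def xi : Task β → ℕ → Bool := (exists_xi β).choose

lemma xi_inj : Injective (xi : Task β → ℕ → Bool) := (exists_xi β).choose_spec

/-- The independent family. -/
def theta (x : ℕ → Bool) : Set Om := {y | y.2.1 (fun i => x i) = true}

/-- The set of a task. -/
def Phi (T : Task β) : Set Om := phi T.1.1 T.1.2 (theta (xi T))

lemma mem_Phi {T : Task β} {y : Om} (h : y ∉ ⋃ n, T.1.1 n) : y ∈ Phi T ↔ y ∈ theta (xi T) := by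
  constructor
  · rintro (⟨h1, -⟩ | ⟨n, -, hn⟩)
    · exact h1
    · exact absurd (Set.mem_iUnion.mpr ⟨n, hn⟩) h
  · intro h1
    exact Or.inl ⟨h1, h⟩

/-- Independence of the family. -/
theorem dens (S : Finset (Task β)) (b : Task β → ZMod 2) : ∃ y : Om, ∀ T ∈ S, (y ∈ Phi T ↔ b T = 1) := by
  classical
  have hev : ∀ᶠ k in atTop, ∀ T ∈ S, ∀ T' ∈ S, S.card ≤ k + 1 ∧
      ((fun i : Fin k => xi T i) = (fun i : Fin k => xi T' i) → T = T') := by
    rw [eventually_all_finset]
    intro T _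
    rw [eventually_all_finset]
    intro T' _
    refine Eventually.and ((eventually_ge_atTop S.card).mono fun k hk => by omega) ?_
    by_cases heq : T = T'
    · exact Eventually.of_forall fun k _ => heq
    · have hne : xi T ≠ xi T' := fun h => heq (xi_inj h)
      obtain ⟨i, hi⟩ := Function.ne_iff.mp hne
      filter_upwards [eventually_gt_atTop i] with k hk h
      exact absurd (congrFun h ⟨i, hk⟩) hi
  have hev2 : ∀ᶠ k in atTop, S.card ≤ k + 1 ∧ ∀ T ∈ S, ∀ T' ∈ S,
      ((fun i : Fin k => xi T i) = (fun i : Fin k => xi T' i) → T = T') := by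
    refine Eventually.and ((eventually_ge_atTop S.card).mono fun k hk => by omega) ?_
    exact hev.mono fun k hk T hT T' hT' => (hk T hT T' hT').2
  obtain ⟨k, hcard, hk⟩ := hev2.exists
  let s : (Fin k → Bool) → Bool := fun w => decide (∃ T ∈ S, b T = 1 ∧ (fun i : Fin k => xi T i) = w)
  have hs : ∀ T ∈ S, (s (fun i : Fin k => xi T i) = true ↔ b T = 1) := by
    intro T hT
    show decide _ = true ↔ _
    rw [decide_eq_true_iff]
    constructor
    · rintro ⟨T', hT', hb, h⟩
      rw [hk T' hT' T hT h] at hb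
      exact hb
    · intro hb
      exact ⟨T, hT, hb, rfl⟩
  have hex : ∃ j : Fin ((k + 1) * (k + 1) + 1), ∀ T ∈ S,
      (⟨k, (s, j)⟩ : Om) ∉ ⋃ n, T.1.1 n := by
    by_contra hcon
    push Not at hcon
    choose T hT hTm using hcon
    have h1 : ∀ j, ∃ i : Fin (k + 1), ∃ c : ℕ → ℕ → Om, (T j).2.choose = c ∧
        c i.1 k = (⟨k, (s, j)⟩ : Om) := by
      intro j
      obtain ⟨i, hi, hc⟩ := (T j).2.choose_spec _ (hTm j)
      have hi' : i ≤ k := hi
      exact ⟨⟨i, by omega⟩, _, rfl, hc⟩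
    choose i c hc hck using h1
    have hinj : Injective (fun j => ((⟨T j, hT j⟩ : S), i j)) := by
      intro j j' h
      simp only [Prod.mk.injEq, Subtype.mk.injEq] at h
      obtain ⟨h1, h2⟩ := h
      have h3 : c j = c j' := by rw [← hc, ← hc, h1]
      have h4 := (hck j).symm.trans ((by rw [h3, h2] : c j (i j).1 k = c j' (i j').1 k).trans (hck j'))
      have h5 : ((s, j) : ((Fin k → Bool) → Bool) × Fin ((k + 1) * (k + 1) + 1)) = (s, j') :=
        eq_of_heq (Sigma.mk.inj h4).2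
      exact congrArg Prod.snd h5
    have h6 := Fintype.card_le_of_injective _ hinj
    rw [Fintype.card_prod, Fintype.card_fin, Fintype.card_fin, Fintype.card_coe] at h6
    have h7 : S.card * (k + 1) ≤ (k + 1) * (k + 1) := Nat.mul_le_mul_right _ hcard
    omega
  obtain ⟨j, hj⟩ := hex
  refine ⟨⟨k, (s, j)⟩, fun T hT => ?_⟩
  rw [mem_Phi (hj T hT)]
  exact hs T hT

end Pool.Agent.H70.SqG
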