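import Pool.Agent.H70.SqG.Top

/-!
# Small powers of `GG β` are countably pracompact
-/

set_option autoImplicit false
open Filter Function Topology

namespace Pool.Agent.H70.SqG

variable {β : ℕ∞}

/-- Countable pracompactness. -/
def CPp (X : Type*) [TopologicalSpace X] : Prop :=
  ∃ D : Set X, Dense D ∧ ∀ B : Set X, B ⊆ D → B.Infinite → ∃ x : X, ∀ U ∈ 𝓝 x, (U ∩ B).Infinite

theorem cp_pow {I : Type*} (hI : ENat.card I < β) : CPp (I → GG β) := by
  classical
  have hfin : Finite I := by
    by_contra h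
    rw [not_finite_iff_infinite] at h
    rw [ENat.card_eq_top_of_infinite] at hI
    exact not_top_lt hI
  have : Fintype I := Fintype.ofFinite I
  refine ⟨Set.pi Set.univ fun _ => Set.range zz, dense_pi Set.univ fun _ _ => dense_zz,
    fun B hB hinf => ?_⟩
  let Z : (I → Om) → (I → GG β) := fun y i => zz (y i)
  have hZ : Injective Z := by
    intro y y' h
    funext i
    exact zz_injective (congrFun h i)
  have hB' : (Z ⁻¹' B).Infinite := by
    intro hf
    apply hinf
    refine (hf.image Z).subset ?_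
    intro b hb
    have h1 : ∀ i, ∃ y : Om, zz y = b i := fun i => hB hb i (Set.mem_univ i)
    choose y hy using h1
    have h2 : Z y = b := funext hy
    exact ⟨y, by rw [Set.mem_preimage, h2]; exact hb, h2⟩
  have hne : NeBot (cofinite ⊓ 𝓟 (Z ⁻¹' B)) := hB'.cofinite_inf_principal_neBot
  let w : Ultrafilter (I → Om) := Ultrafilter.of (cofinite ⊓ 𝓟 (Z ⁻¹' B))
  have hwle : (w : Filter (I → Om)) ≤ cofinite ⊓ 𝓟 (Z ⁻¹' B) := Ultrafilter.of_le _
  have hw1 : ∀ᶠ y in (w : Filter (I → Om)), Z y ∈ B :=
    hwle (mem_inf_of_right (mem_principal_self _))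
  have hw2 : ∀ F : Set (I → Om), F.Finite → F ∉ w := by
    intro F hF
    rw [← Ultrafilter.compl_mem_iff_notMem]
    exact hwle (mem_inf_of_left hF.compl_mem_cofinite)
  let Co : I → Prop := fun i => ∃ z, {y : I → Om | y i = z} ∈ w
  have h1 : ∀ i, ∃ z, Co i → {y : I → Om | y i = z} ∈ w := by
    intro i
    by_cases h : Co i
    · obtain ⟨z, hz⟩ := h
      exact ⟨z, fun _ => hz⟩
    · exact ⟨Classical.arbitrary Om, fun h' => absurd h' h⟩
  choose y0 hy0 using h1
  have e2 : ∀ᶠ y in (w : Filter (I → Om)), ∀ i, Co i → y i = y0 i := by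
    rw [eventually_all]
    intro i
    by_cases h : Co i
    · exact mem_of_superset (hy0 i h) fun y hy _ => hy
    · exact Eventually.of_forall fun y h' => absurd h' h
  have e3 : ∀ᶠ y in (w : Filter (I → Om)), ∀ i i', (y i = y i' ↔ {y : I → Om | y i = y i'} ∈ w) := by
    rw [eventually_all]
    intro i
    rw [eventually_all]
    intro i'
    by_cases h : {y : I → Om | y i = y i'} ∈ w
    · exact mem_of_superset h fun y hy => ⟨fun _ => h, fun _ => hy⟩
    · refine mem_of_superset (Ultrafilter.compl_mem_iff_notMem.mpr h) ?_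
      intro y hy
      exact ⟨fun h' => absurd h' hy, fun h' => absurd h' h⟩
  have hblk : ∀ i', ¬ Co i' → ∀ k : ℕ, ∀ᶠ y in (w : Filter (I → Om)), k ≠ bl (y i') := by
    intro i' hi' k
    by_contra hcon
    have h2 : {y : I → Om | k ≠ bl (y i')} ∉ w := hcon
    have h3 := Ultrafilter.compl_mem_iff_notMem.mpr h2
    have h4 : (⋃ z ∈ {z : Om | bl z = k}, {y : I → Om | y i' = z}) ∈ w := by
      refine mem_of_superset h3 ?_
      intro y hy
      have hy' : k = bl (y i') := not_not.mp hy
      exact Set.mem_biUnion (show y i' ∈ {z : Om | bl z = k} from hy'.symm) rfl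
    rw [Ultrafilter.finite_biUnion_mem_iff (finite_block k)] at h4
    obtain ⟨z, -, hz⟩ := h4
    exact hi' ⟨z, hz⟩
  obtain ⟨y, hy1, hy2⟩ := exists_seq_of_forall_finset_exists
    (fun y : I → Om => Z y ∈ B ∧ (∀ i, Co i → y i = y0 i) ∧
      ∀ i i', (y i = y i' ↔ {y : I → Om | y i = y i'} ∈ w))
    (fun x y : I → Om => ∀ i i', ¬ Co i → ¬ Co i' → bl (x i) ≠ bl (y i')) (by
      intro s _
      have e4 : ∀ᶠ y in (w : Filter (I → Om)), ∀ x ∈ s, ∀ i i', ¬ Co i → ¬ Co i' →
          bl (x i) ≠ bl (y i') := by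
        rw [eventually_all_finset]
        intro x _
        rw [eventually_all]
        intro i
        rw [eventually_all]
        intro i'
        by_cases h : Co i'
        · exact Eventually.of_forall fun y _ h' => absurd h h'
        · exact (hblk i' h (bl (x i))).mono fun y hy _ _ => hy
      obtain ⟨y, hy⟩ := (hw1.and (e2.and (e3.and e4))).exists
      exact ⟨y, ⟨hy.1, hy.2.1, hy.2.2.1⟩, hy.2.2.2⟩)
  obtain ⟨i0, hi0⟩ : ∃ i, ¬ Co i := by
    by_contra hcon
    push Not at hcon
    apply hw2 {y0} (Set.finite_singleton _)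
    refine mem_of_superset e2 ?_
    intro y hy
    exact funext fun i => hy i (hcon i)
  have hselinj : ∀ i, ¬ Co i → Injective (fun n => bl (y n i)) := by
    intro i hi
    exact Function.Injective.of_lt_imp_ne fun m n hmn => hy2 m n hmn i i hi hi
  have hsel : ∀ i, ∃ e : Sel, ¬ Co i → e.1 = fun n => y n i := by
    intro i
    by_cases hi : Co i
    · exact ⟨⟨fun n => y n i0, hselinj i0 hi0⟩, fun h => absurd hi h⟩
    · exact ⟨⟨fun n => y n i, hselinj i hi⟩, fun _ => rfl⟩
  choose e he using hsel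
  let t : Finset Sel := (Finset.univ.filter fun i => ¬ Co i).image e
  have hmem : ∀ i, ¬ Co i → e i ∈ t := fun i hi =>
    Finset.mem_image_of_mem e (Finset.mem_filter.mpr ⟨Finset.mem_univ i, hi⟩)
  have hcard : (t.card : ℕ∞) < β := by
    refine lt_of_le_of_lt ?_ hI
    rw [ENat.card_eq_coe_fintype_card]
    have h5 : t.card ≤ Fintype.card I :=
      Finset.card_image_le.trans ((Finset.card_filter_le _ _).trans le_rfl)
    exact_mod_cast h5
  have hDR : DR t := by
    intro a ha b hb hab
    obtain ⟨i, hi, rfl⟩ := Finset.mem_image.mp ha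
    obtain ⟨i', hi', rfl⟩ := Finset.mem_image.mp hb
    have hi := (Finset.mem_filter.mp hi).2
    have hi' := (Finset.mem_filter.mp hi').2
    rw [he i hi, he i' hi', Set.disjoint_left]
    rintro _ ⟨m, rfl⟩ ⟨n, hmn⟩
    have hmn' : y n i' = y m i := hmn
    rcases lt_trichotomy m n with h | h | h
    · exact hy2 m n h i i' hi hi' (congrArg bl hmn'.symm)
    · subst h
      apply hab
      have h6 := ((hy1 m).2.2 i i').mp hmn'.symm
      apply Subtype.ext
      rw [he i hi, he i' hi']
      funext k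
      exact ((hy1 k).2.2 i i').mpr h6
    · exact hy2 n m h i' i hi' hi (congrArg bl hmn')
  let jj : ∀ i, ¬ Co i → Jt β := fun i hi => ⟨(t, e i), hmem i hi, hcard, hDR⟩
  let x : I → GG β := fun i => if h : Co i then zz (y0 i) else Finsupp.single (Sum.inr (jj i h)) 1
  have htend : Tendsto (fun n => Z (y n)) (pU (lab t) : Filter ℕ) (𝓝 x) := by
    rw [tendsto_pi_nhds]
    intro i
    by_cases hi : Co i
    · have hx : x i = zz (y0 i) := dif_pos hi
      rw [hx]
      have h7 : (fun n => Z (y n) i) = fun _ => (zz (y0 i) : GG β) := by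
        funext n
        show (zz (y n i) : GG β) = zz (y0 i)
        rw [(hy1 n).2.1 i hi]
      rw [h7]
      exact tendsto_const_nhds
    · have hx : x i = Finsupp.single (Sum.inr (jj i hi)) 1 := dif_neg hi
      rw [hx]
      have h8 := tendsto_gen (jj i hi)
      have h9 : (fun a => (zz ((jj i hi).1.2.1 a) : GG β)) = fun n => Z (y n) i := by
        funext a
        show (zz ((e i).1 a) : GG β) = zz (y a i)
        rw [he i hi]
      rw [h9] at h8
      exact h8
  have hyinj : Injective (fun n => Z (y n)) := by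
    intro m n h
    have h10 : y m = y n := hZ h
    exact hselinj i0 hi0 (by show bl (y m i0) = bl (y n i0); rw [h10])
  refine ⟨x, fun U hU => ?_⟩
  have h11 : {n | Z (y n) ∈ U} ∈ pU (lab t) := htend hU
  refine ((pU_infinite h11).image hyinj.injOn).mono ?_
  rintro _ ⟨n, hn, rfl⟩
  exact ⟨hn, (hy1 n).1⟩

end Pool.Agent.H70.SqG
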