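import Pool.Agent.H70.SqG.PowA

/-!
# Large powers of `GG β` are not countably pracompact
-/

set_option autoImplicit false
open Filter Function Topology

namespace Pool.Agent.H70.SqG

variable {β : ℕ∞}

/-- If infinitely many generators outside `Om` occur in one coordinate of `D`, some infinite subset does not accumulate. -/
theorem caseA {X : Type*} [TopologicalSpace X] {π : X → GG β} (hπ : Continuous π) {D : Set X}
    (hacc : ∀ B : Set X, B ⊆ D → B.Infinite → ∃ x : X, ∀ U ∈ 𝓝 x, (U ∩ B).Infinite)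
    (hinf : {j : Jt β | ∃ z ∈ D, π z (Sum.inr j) ≠ 0}.Infinite) : False := by
  classical
  have hseq : ∃ u : ℕ → X × Jt β, (∀ n, (u n).1 ∈ D ∧ π (u n).1 (Sum.inr (u n).2) ≠ 0) ∧
      ∀ m n, m < n → π (u m).1 (Sum.inr (u n).2) = 0 := by
    apply exists_seq_of_forall_finset_exists
      (fun u : X × Jt β => u.1 ∈ D ∧ π u.1 (Sum.inr u.2) ≠ 0)
      (fun u v => π u.1 (Sum.inr v.2) = 0)
    intro s _
    have hfin : (⋃ u ∈ s, {e : Jt β | π u.1 (Sum.inr e) ≠ 0}).Finite :=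
      (Finset.finite_toSet s).biUnion fun u _ => finite_inr (π u.1)
    obtain ⟨e, ⟨z, hz, he⟩, hne⟩ := (hinf.sdiff hfin).nonempty
    refine ⟨(z, e), ⟨hz, he⟩, fun u hu => ?_⟩
    by_contra hcon
    exact hne (Set.mem_biUnion (Finset.mem_coe.mpr hu) hcon)
  obtain ⟨u, hu1, hu2⟩ := hseq
  have hinj : Injective (fun n => (u n).1) := by
    apply Function.Injective.of_lt_imp_ne
    intro m n hmn he
    have he' : (u m).1 = (u n).1 := he
    apply (hu1 n).2
    rw [← he']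
    exact hu2 m n hmn
  obtain ⟨x, hx⟩ := hacc (Set.range fun n => (u n).1) (by rintro _ ⟨n, rfl⟩; exact (hu1 n).1)
    (Set.infinite_range_of_injective hinj)
  obtain ⟨U, hU, hfin⟩ := case1 (fun n => π (u n).1) (fun n => (u n).2) (fun n => (hu1 n).2) hu2 (π x)
  have hpre : π ⁻¹' U ∈ 𝓝 x := hπ.continuousAt.preimage_mem_nhds hU
  apply hx _ hpre
  refine (hfin.image (fun n => (u n).1)).subset ?_
  rintro _ ⟨hn, n, rfl⟩
  exact ⟨n, hn, rfl⟩

/-- The elements supported in a finite set. -/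
def Sg (E : Set (Io β)) : Set (GG β) := {g | ∀ v, g v ≠ 0 → v ∈ E}

lemma Sg_finite {E : Set (Io β)} (hE : E.Finite) : (Sg E).Finite := by
  classical
  have h1 : Sg E ⊆ ↑(hE.toFinset.finsupp (fun _ => (Finset.univ : Finset (ZMod 2)))) := by
    intro g hg
    rw [Finset.mem_coe, Finset.mem_finsupp_iff]
    refine ⟨fun v hv => hE.mem_toFinset.mpr (hg v (Finsupp.mem_support_iff.mp hv)), fun _ _ =>
      Finset.mem_univ _⟩
  exact (Finset.finite_toSet _).subset h1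

lemma Sg_closed {E : Set (Io β)} (hE : E.Finite) : IsClosed (Sg E) := (Sg_finite hE).isClosed

/-- A system of distinct new coordinates. -/
lemma hall {ι : Type*} [Fintype ι] (z : ι → GG β) (E : Set (Io β))
    (h : ∀ d : Finset ι, d.Nonempty → ∑ κ ∈ d, z κ ∉ Sg E) :
    ∃ v : ι → Io β, Injective v ∧ ∀ κ, v κ ∉ E ∧ z κ (v κ) ≠ 0 := by
  classical
  have h1 : ∃ f : ι → Io β, Injective f ∧ ∀ κ, f κ ∈ (z κ).support.filter (fun v => v ∉ E) := by
    rw [← Finset.all_card_le_biUnion_card_iff_exists_injective]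
    intro s
    set U : Finset (Io β) := s.biUnion fun κ => (z κ).support.filter (fun v => v ∉ E) with hU
    have hzero : ∀ i : s, ∀ v, v ∉ E → v ∉ U → z i v = 0 := by
      intro i v hv hvU
      by_contra hcon
      apply hvU
      rw [hU, Finset.mem_biUnion]
      exact ⟨i, i.2, Finset.mem_filter.mpr ⟨Finsupp.mem_support_iff.mpr hcon, hv⟩⟩
    have hli : LinearIndependent (ZMod 2) (fun (i : s) (u : U) => z i (u : Io β)) := by
      rw [Fintype.linearIndependent_iff]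
      intro g hg
      by_contra hcon
      push Not at hcon
      obtain ⟨i0, hi0⟩ := hcon
      let d' : Finset s := Finset.univ.filter fun i => g i ≠ 0
      let d : Finset ι := d'.map (Embedding.subtype _)
      have hdne : d.Nonempty := ⟨i0, Finset.mem_map.mpr ⟨i0, Finset.mem_filter.mpr
        ⟨Finset.mem_univ _, hi0⟩, rfl⟩⟩
      apply h d hdne
      intro v hv
      by_contra hvE
      apply hv
      have h2 : (∑ κ ∈ d, z κ) v = ∑ i : s, g i * z i v := by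
        rw [Finsupp.finsetSum_apply, Finset.sum_map, Finset.sum_filter]
        refine Finset.sum_congr rfl fun i _ => ?_
        show (if g i ≠ 0 then z (i : ι) v else 0) = g i * z i v
        rcases zmod2 (g i) with h3 | h3
        · rw [h3, if_neg (fun h => h rfl), zero_mul]
        · rw [h3, if_pos one_ne_zero, one_mul]
      rw [h2]
      by_cases hvU : v ∈ U
      · have h4 := congrFun hg ⟨v, hvU⟩
        rw [Finset.sum_apply] at h4
        exact h4
      · refine Finset.sum_eq_zero fun i _ => ?_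
        rw [hzero i v hvE hvU, mul_zero]
    have h5 := hli.fintype_card_le_finrank
    rw [Module.finrank_fintype_fun_eq_card, Fintype.card_coe, Fintype.card_coe] at h5
    exact h5
  obtain ⟨f, hf, hf2⟩ := h1
  refine ⟨f, hf, fun κ => ?_⟩
  have h6 := Finset.mem_filter.mp (hf2 κ)
  exact ⟨h6.2, Finsupp.mem_support_iff.mp h6.1⟩

/-- The choice of the next tuple. -/
lemma next_tuple {K : Type*} {D : Set (K → GG β)} (hD : Dense D) (Fk : Finset K)
    {E : Set (Io β)} (hE : E.Finite) :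
    ∃ z ∈ D, ∃ v : K → Io β, (∀ κ ∈ Fk, v κ ∉ E ∧ z κ (v κ) ≠ 0) ∧ Set.InjOn v Fk := by
  classical
  have hy : {y : Om | (Sum.inl y : Io β) ∈ E}.Finite := hE.preimage Sum.inl_injective.injOn
  have hyc : ({y : Om | (Sum.inl y : Io β) ∈ E}ᶜ).Infinite := hy.infinite_compl
  let en := hyc.natEmbedding
  let y : Fk → Om := fun κ => (en (Fk.equivFin κ : ℕ) : Om)
  have hyinj : Injective y := by
    intro κ κ' h
    have h1 := en.injective (Subtype.ext h)
    exact Fk.equivFin.injective (Fin.ext h1)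
  have hyE : ∀ κ, (Sum.inl (y κ) : Io β) ∉ E := fun κ => (en (Fk.equivFin κ : ℕ)).2
  let z0 : K → GG β := fun κ => if h : κ ∈ Fk then zz (y ⟨κ, h⟩) else 0
  let O : Set (K → GG β) := ⋂ d : {d : Finset Fk // d.Nonempty},
    {z | ∑ κ ∈ d.1, z (κ : K) ∈ Sg E}ᶜ
  have hO : IsOpen O := by
    refine isOpen_iInter_of_finite fun d => ?_
    have hc : Continuous (fun z : K → GG β => ∑ κ ∈ d.1, z (κ : K)) :=
      continuous_finsetSum _ fun κ _ => continuous_apply _
    exact ((Sg_closed hE).preimage hc).isOpen_compl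
  have hmem : z0 ∈ O := by
    refine Set.mem_iInter.mpr fun d => ?_
    obtain ⟨d, κ0, hκ0⟩ := d
    intro hcon
    have hcon' : ∑ κ ∈ d, z0 (κ : K) ∈ Sg E := hcon
    apply hyE κ0
    apply hcon'
    have h2 : (∑ κ ∈ d, z0 (κ : K)) (Sum.inl (y κ0)) = 1 := by
      rw [Finsupp.finsetSum_apply, Finset.sum_eq_single κ0]
      · have h3 : z0 (κ0 : K) = zz (y κ0) := dif_pos κ0.2
        rw [h3]
        exact Finsupp.single_eq_same
      · intro κ _ hne
        have h3 : z0 (κ : K) = zz (y κ) := dif_pos κ.2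
        rw [h3]
        refine Finsupp.single_eq_of_ne ?_
        intro h4
        exact hne (hyinj (Sum.inl_injective h4)).symm
      · intro h4
        exact absurd hκ0 h4
    rw [h2]
    exact one_ne_zero
  obtain ⟨z, hzO, hzD⟩ := hD.inter_open_nonempty O hO ⟨_, hmem⟩
  obtain ⟨v, hv, hv2⟩ := hall (fun κ : Fk => z κ) E (fun d hd => Set.mem_iInter.mp hzO ⟨d, hd⟩)
  refine ⟨z, hzD, fun κ => if h : κ ∈ Fk then v ⟨κ, h⟩ else Sum.inl (Classical.arbitrary Om), ?_, ?_⟩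
  · intro κ hκ
    show (if h : κ ∈ Fk then v ⟨κ, h⟩ else Sum.inl (Classical.arbitrary Om)) ∉ E ∧
      z κ (if h : κ ∈ Fk then v ⟨κ, h⟩ else Sum.inl (Classical.arbitrary Om)) ≠ 0
    rw [dif_pos hκ]
    exact hv2 ⟨κ, hκ⟩
  · intro κ hκ κ' hκ' h
    have hκ1 := Finset.mem_coe.mp hκ
    have hκ2 := Finset.mem_coe.mp hκ'
    have h1 : (if h : κ ∈ Fk then v ⟨κ, h⟩ else Sum.inl (Classical.arbitrary Om)) =
      (if h : κ' ∈ Fk then v ⟨κ', h⟩ else Sum.inl (Classical.arbitrary Om)) := h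
    rw [dif_pos hκ1, dif_pos hκ2] at h1
    exact congrArg Subtype.val (hv h1)

/-- The ultrafilter of indices is detected by one generator. -/
lemma detect (g : ℕ → GG β) (c : ℕ → Om) (n0 : ℕ) {R : Set (Jt β)} (hRf : R.Finite)
    (h1 : ∀ n, n0 ≤ n → g n (Sum.inl (c n)) ≠ 0)
    (h2 : ∀ m n, n0 ≤ m → m < n → g m (Sum.inl (c n)) = 0)
    (hbl : Set.InjOn (fun n => bl (c n)) {n | n0 ≤ n}) (hR : ∀ n e, g n (Sum.inr e) ≠ 0 → e ∈ R)
    (gg : GG β) (r : Ultrafilter ℕ) (hr : ∀ F : Set ℕ, F.Finite → F ∉ r)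
    (hg : ∀ U ∈ 𝓝 gg, {n | g n ∈ U} ∈ r) :
    ∃ j : Jt β, ∀ B ∈ r, {a | ∃ n ∈ B, n0 ≤ n ∧ j.1.2.1 a = c n} ∈ pU (lab j.1.1) := by
  classical
  by_contra hcon
  push Not at hcon
  choose Bf hBr hB using hcon
  have hfin : (R ∪ {j : Jt β | gg (Sum.inr j) ≠ 0}).Finite := hRf.union (finite_inr gg)
  have hcof : {n : ℕ | n0 ≤ n} ∈ r := by
    rw [← compl_compl {n : ℕ | n0 ≤ n}, Ultrafilter.compl_mem_iff_notMem]
    refine hr _ ((Set.finite_lt_nat n0).subset ?_)
    intro n hn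
    have hn' : ¬ n0 ≤ n := hn
    exact not_le.mp hn'
  have hinter : (⋂ j ∈ (R ∪ {j : Jt β | gg (Sum.inr j) ≠ 0}), Bf j) ∈ r :=
    (Filter.biInter_mem hfin).mpr fun j _ => hBr j
  set B : Set ℕ := (⋂ j ∈ (R ∪ {j : Jt β | gg (Sum.inr j) ≠ 0}), Bf j) ∩ {n : ℕ | n0 ≤ n} with hBdef
  have hBmem : B ∈ r := inter_mem hinter hcof
  obtain ⟨U, hU, hUfin⟩ := case2 g c B R (fun n hn => h1 n hn.2) (fun m hm n _ hmn => h2 m n hm.2 hmn)
    (hbl.mono fun n hn => hn.2) hR gg (by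
      intro e he hmem
      apply hB e
      refine mem_of_superset hmem ?_
      rintro a ⟨n, hn, han⟩
      exact ⟨n, Set.mem_iInter₂.mp hn.1 e he, hn.2, han⟩)
  have h3 : {n | n ∈ B ∧ g n ∈ U} ∈ r := inter_mem hBmem (hg U hU)
  exact hr _ hUfin h3

/-- The partial inverse of a sequence as a map into `ℕ ⊕ ℕ`. -/
lemma exists_pf (e : Sel) {c : ℕ → Om} {n0 : ℕ} (hc : Set.InjOn c {n | n0 ≤ n}) :
    ∃ f : ℕ → ℕ ⊕ ℕ, Injective f ∧ ∀ a n, n0 ≤ n → e.1 a = c n → f a = Sum.inl n := by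
  classical
  let f : ℕ → ℕ ⊕ ℕ := fun a => if h : ∃ n, n0 ≤ n ∧ e.1 a = c n then Sum.inl h.choose else Sum.inr a
  have h1 : ∀ a n, n0 ≤ n → e.1 a = c n → f a = Sum.inl n := by
    intro a n hn han
    have h : ∃ n, n0 ≤ n ∧ e.1 a = c n := ⟨n, hn, han⟩
    show (if h : ∃ n, n0 ≤ n ∧ e.1 a = c n then (Sum.inl h.choose : ℕ ⊕ ℕ) else Sum.inr a) = Sum.inl n
    rw [dif_pos h]
    exact congrArg Sum.inl (hc h.choose_spec.1 hn (h.choose_spec.2.symm.trans han))
  have h2 : ∀ a, (¬ ∃ n, n0 ≤ n ∧ e.1 a = c n) → f a = Sum.inr a := by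
    intro a h
    show (if h : ∃ n, n0 ≤ n ∧ e.1 a = c n then (Sum.inl h.choose : ℕ ⊕ ℕ) else Sum.inr a) = Sum.inr a
    rw [dif_neg h]
  refine ⟨f, ?_, h1⟩
  intro a b hab
  by_cases ha : ∃ n, n0 ≤ n ∧ e.1 a = c n
  · obtain ⟨n, hn, han⟩ := ha
    by_cases hb : ∃ n, n0 ≤ n ∧ e.1 b = c n
    · obtain ⟨m, hm, hbm⟩ := hb
      rw [h1 a n hn han, h1 b m hm hbm] at hab
      have hnm : n = m := Sum.inl_injective hab
      subst hnm
      exact sel_inj e (han.trans hbm.symm)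
    · rw [h1 a n hn han, h2 b hb] at hab
      exact absurd hab Sum.inl_ne_inr
  · by_cases hb : ∃ n, n0 ≤ n ∧ e.1 b = c n
    · obtain ⟨m, hm, hbm⟩ := hb
      rw [h2 a ha, h1 b m hm hbm] at hab
      exact absurd hab Sum.inr_ne_inl
    · rw [h2 a ha, h2 b hb] at hab
      exact Sum.inr_injective hab

/-- Two detecting generators have the same finite set of selectors. -/
lemma same_set (r : Ultrafilter ℕ) {c c' : ℕ → Om} {n0 n0' : ℕ} (hc : Set.InjOn c {n | n0 ≤ n})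
    (hc' : Set.InjOn c' {n | n0' ≤ n}) {j j' : Jt β}
    (h : ∀ B ∈ r, {a | ∃ n ∈ B, n0 ≤ n ∧ j.1.2.1 a = c n} ∈ pU (lab j.1.1))
    (h' : ∀ B ∈ r, {a | ∃ n ∈ B, n0' ≤ n ∧ j'.1.2.1 a = c' n} ∈ pU (lab j'.1.1)) :
    j.1.1 = j'.1.1 := by
  classical
  by_contra hne
  obtain ⟨f, hf, hf1⟩ := exists_pf j.1.2 hc
  obtain ⟨f', hf', hf1'⟩ := exists_pf j'.1.2 hc'
  obtain ⟨U, hU, hd⟩ := sepS lab_inj {t | t = j.1.1 ∨ t = j'.1.1}
    ((Set.finite_singleton j.1.1).union (Set.finite_singleton j'.1.1)).countable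
    (fun t => if t = j.1.1 then {f} else {f'}) (by
      intro t _ g hg
      by_cases ht : t = j.1.1
      · rw [if_pos ht, Finset.mem_singleton] at hg
        rw [hg]
        exact hf
      · rw [if_neg ht, Finset.mem_singleton] at hg
        rw [hg]
        exact hf')
  have hd' := hd j.1.1 (Or.inl rfl) j'.1.1 (Or.inr rfl) hne f
    (by rw [if_pos rfl]; exact Finset.mem_singleton_self f) f'
    (by rw [if_neg (Ne.symm hne)]; exact Finset.mem_singleton_self f')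
  have hU1 := hU j.1.1 (Or.inl rfl)
  have hU2 := hU j'.1.1 (Or.inr rfl)
  set B : Set ℕ := {n | ∃ a ∈ U j.1.1, f a = Sum.inl n} with hB
  by_cases hBr : B ∈ r
  · obtain ⟨b, ⟨n, hnB, hn, hbn⟩, hb⟩ := (pU (lab j'.1.1)).nonempty_of_mem (inter_mem (h' B hBr) hU2)
    obtain ⟨a, ha, hfa⟩ := hnB
    exact hd' a ha b hb (hfa.trans (hf1' b n hn hbn).symm)
  · have hBc : Bᶜ ∈ r := Ultrafilter.compl_mem_iff_notMem.mpr hBr
    obtain ⟨a, ⟨n, hnB, hn, han⟩, ha⟩ := (pU (lab j.1.1)).nonempty_of_mem (inter_mem (h _ hBc) hU1)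
    exact hnB ⟨a, ha, hf1 a n hn han⟩

theorem not_cp_count {K : Type} (ν : K → ℕ) (hν : Injective ν) (hβ : 1 ≤ β)
    (hK : ∀ t : Finset Sel, (t.card : ℕ∞) < β → ¬ ∃ f : K → Sel, Injective f ∧ ∀ κ, f κ ∈ t) :
    ¬ CPp (K → GG β) := by
  classical
  rintro ⟨D, hD, hacc⟩
  obtain ⟨κ0⟩ : Nonempty K := by
    by_contra hne
    rw [not_nonempty_iff] at hne
    apply hK ∅
    · rw [Finset.card_empty, Nat.cast_zero]
      exact lt_of_lt_of_le one_pos hβ
    · exact ⟨fun κ => (hne.false κ).elim, fun κ => (hne.false κ).elim, fun κ => (hne.false κ).elim⟩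
  have hRf : ∀ κ : K, {j : Jt β | ∃ z ∈ D, z κ (Sum.inr j) ≠ 0}.Finite := by
    intro κ
    by_contra hcon
    exact caseA (π := fun z : K → GG β => z κ) (continuous_apply κ) hacc hcon
  have hFin : ∀ k : ℕ, {κ : K | ν κ ≤ k}.Finite := fun k =>
    (Set.finite_le_nat k).preimage hν.injOn
  have hseq : ∃ u : ℕ → (K → GG β) × ((K → Om) × ℕ),
      (∀ n, (u n).1 ∈ D ∧ ν κ0 ≤ (u n).2.2 ∧
        (∀ κ, ν κ ≤ (u n).2.2 → (u n).1 κ (Sum.inl ((u n).2.1 κ)) ≠ 0) ∧
        ∀ κ κ', ν κ ≤ (u n).2.2 → ν κ' ≤ (u n).2.2 → κ ≠ κ' → (u n).2.1 κ ≠ (u n).2.1 κ') ∧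
      ∀ m n, m < n → (u m).2.2 < (u n).2.2 ∧
        (∀ κ, ν κ ≤ (u n).2.2 → (u m).1 κ (Sum.inl ((u n).2.1 κ)) = 0) ∧
        ∀ κ κ', ν κ ≤ (u m).2.2 → ν κ' ≤ (u n).2.2 → bl ((u m).2.1 κ) ≠ bl ((u n).2.1 κ') := by
    apply exists_seq_of_forall_finset_exists
      (fun u : (K → GG β) × ((K → Om) × ℕ) => u.1 ∈ D ∧ ν κ0 ≤ u.2.2 ∧
        (∀ κ, ν κ ≤ u.2.2 → u.1 κ (Sum.inl (u.2.1 κ)) ≠ 0) ∧
        ∀ κ κ', ν κ ≤ u.2.2 → ν κ' ≤ u.2.2 → κ ≠ κ' → u.2.1 κ ≠ u.2.1 κ')
      (fun u v => u.2.2 < v.2.2 ∧ (∀ κ, ν κ ≤ v.2.2 → u.1 κ (Sum.inl (v.2.1 κ)) = 0) ∧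
        ∀ κ κ', ν κ ≤ u.2.2 → ν κ' ≤ v.2.2 → bl (u.2.1 κ) ≠ bl (v.2.1 κ'))
    intro s _
    set k : ℕ := s.sup (fun u => u.2.2) + 1 + ν κ0 with hk
    have hsk : ∀ u ∈ s, u.2.2 < k := by
      intro u hu
      have h1 := Finset.le_sup (f := fun u : (K → GG β) × ((K → Om) × ℕ) => u.2.2) hu
      have h2 : u.2.2 ≤ s.sup (fun u => u.2.2) := h1
      omega
    set Fk : Finset K := (hFin k).toFinset with hFk
    have hmemF : ∀ κ, κ ∈ Fk ↔ ν κ ≤ k := by
      intro κ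
      rw [hFk, Set.Finite.mem_toFinset]
      rfl
    let E : Set (Io β) := (⋃ u ∈ s, ⋃ κ ∈ Fk, ((↑(u.1 κ).support : Set (Io β)) ∪
      Sum.inl '' {y | bl y = bl (u.2.1 κ)})) ∪
      ⋃ κ ∈ Fk, Sum.inr '' {j : Jt β | ∃ z ∈ D, z κ (Sum.inr j) ≠ 0}
    have hE : E.Finite := by
      refine Set.Finite.union ?_ ?_
      · refine (Finset.finite_toSet s).biUnion fun u _ => ?_
        refine (Finset.finite_toSet Fk).biUnion fun κ _ => ?_
        exact (Finset.finite_toSet _).union ((finite_block _).image _)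
      · exact (Finset.finite_toSet Fk).biUnion fun κ _ => (hRf κ).image _
    obtain ⟨z, hzD, v, hv, hvinj⟩ := next_tuple hD Fk hE
    have hvl : ∀ κ, ∃ y : Om, κ ∈ Fk → v κ = Sum.inl y := by
      intro κ
      by_cases hκ : κ ∈ Fk
      · rcases hvκ : v κ with y | j
        · exact ⟨y, fun _ => rfl⟩
        · exfalso
          apply (hv κ hκ).1
          rw [hvκ]
          refine Or.inr (Set.mem_biUnion (Finset.mem_coe.mpr hκ) ⟨j, ⟨z, hzD, ?_⟩, rfl⟩)
          rw [← hvκ]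
          exact (hv κ hκ).2
      · exact ⟨Classical.arbitrary Om, fun h => absurd h hκ⟩
    choose y hy using hvl
    have hyE : ∀ κ, ν κ ≤ k → (Sum.inl (y κ) : Io β) ∉ E := by
      intro κ hκ
      have hκ' := (hmemF κ).mpr hκ
      rw [← hy κ hκ']
      exact (hv κ hκ').1
    refine ⟨(z, (y, k)), ⟨hzD, by show ν κ0 ≤ k; omega, ?_, ?_⟩, fun u hu => ⟨hsk u hu, ?_, ?_⟩⟩
    · intro κ hκ
      have hκ' := (hmemF κ).mpr hκ
      have h1 := (hv κ hκ').2
      rw [hy κ hκ'] at h1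
      exact h1
    · intro κ κ' hκ hκ' hne hyy
      have h1 := (hmemF κ).mpr hκ
      have h2 := (hmemF κ').mpr hκ'
      apply hne
      apply hvinj (Finset.mem_coe.mpr h1) (Finset.mem_coe.mpr h2)
      rw [hy κ h1, hy κ' h2, show y κ = y κ' from hyy]
    · intro κ hκ
      show u.1 κ (Sum.inl (y κ)) = 0
      by_contra hcon
      apply hyE κ hκ
      refine Or.inl (Set.mem_biUnion (Finset.mem_coe.mpr hu)
        (Set.mem_biUnion (Finset.mem_coe.mpr ((hmemF κ).mpr hκ)) (Or.inl ?_)))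
      exact Finset.mem_coe.mpr (Finsupp.mem_support_iff.mpr hcon)
    · intro κ κ' hκ hκ' hbb
      have hκk : ν κ ≤ k := hκ.trans (hsk u hu).le
      apply hyE κ' hκ'
      refine Or.inl (Set.mem_biUnion (Finset.mem_coe.mpr hu)
        (Set.mem_biUnion (Finset.mem_coe.mpr ((hmemF κ).mpr hκk)) (Or.inr ⟨y κ', ?_, rfl⟩)))
      exact Eq.symm hbb
  obtain ⟨u, hu1, hu2⟩ := hseq
  have hkn : ∀ n, n ≤ (u n).2.2 := by
    intro n
    induction n with
    | zero => exact Nat.zero_le _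
    | succ n ih => exact Nat.succ_le_of_lt (lt_of_le_of_lt ih (hu2 n (n + 1) (Nat.lt_succ_self n)).1)
  have hinj : Injective (fun n => (u n).1) := by
    apply Function.Injective.of_lt_imp_ne
    intro m n hmn he
    have he' : (u m).1 = (u n).1 := he
    apply (hu1 n).2.2.1 κ0 (hu1 n).2.1
    rw [← he']
    exact (hu2 m n hmn).2.1 κ0 (hu1 n).2.1
  obtain ⟨x, hx⟩ := hacc (Set.range fun n => (u n).1) (by rintro _ ⟨n, rfl⟩; exact (hu1 n).1)
    (Set.infinite_range_of_injective hinj)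
  have hne : NeBot (comap (fun n => (u n).1) (𝓝 x) ⊓ cofinite) := by
    rw [Filter.inf_neBot_iff]
    intro A hA C hC
    obtain ⟨U, hU, hUA⟩ := mem_comap.mp hA
    have h1 := hx U hU
    have h2 : ((fun n => (u n).1) ⁻¹' U).Infinite := by
      intro hf
      apply h1
      refine (hf.image (fun n => (u n).1)).subset ?_
      rintro _ ⟨hn, n, rfl⟩
      exact ⟨n, hn, rfl⟩
    have hCf : Cᶜ.Finite := mem_cofinite.mp hC
    obtain ⟨n, hn, hnC⟩ := (h2.sdiff hCf).nonempty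
    exact ⟨n, hUA hn, not_not.mp hnC⟩
  let r : Ultrafilter ℕ := Ultrafilter.of (comap (fun n => (u n).1) (𝓝 x) ⊓ cofinite)
  have hrle : (r : Filter ℕ) ≤ comap (fun n => (u n).1) (𝓝 x) ⊓ cofinite := Ultrafilter.of_le _
  have hr1 : ∀ F : Set ℕ, F.Finite → F ∉ r := by
    intro F hF
    rw [← Ultrafilter.compl_mem_iff_notMem]
    exact hrle (mem_inf_of_right hF.compl_mem_cofinite)
  have hr2 : ∀ U ∈ 𝓝 x, {n | (u n).1 ∈ U} ∈ r := fun U hU =>
    hrle (mem_inf_of_left (preimage_mem_comap hU))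
  have hbl : ∀ κ κ' m n, ν κ ≤ m → ν κ' ≤ n → m ≠ n → bl ((u m).2.1 κ) ≠ bl ((u n).2.1 κ') := by
    intro κ κ' m n hm hn hmn
    rcases lt_or_gt_of_ne hmn with h | h
    · exact (hu2 m n h).2.2 κ κ' (hm.trans (hkn m)) (hn.trans (hkn n))
    · exact Ne.symm ((hu2 n m h).2.2 κ' κ (hn.trans (hkn n)) (hm.trans (hkn m)))
  have hblinj : ∀ κ, Set.InjOn (fun n => bl ((u n).2.1 κ)) {n | ν κ ≤ n} := by
    intro κ m hm n hn h
    by_contra hmn
    exact hbl κ κ m n hm hn hmn h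
  have hcinj : ∀ κ, Set.InjOn (fun n => (u n).2.1 κ) {n | ν κ ≤ n} := by
    intro κ m hm n hn h
    exact hblinj κ hm hn (congrArg bl h)
  have hdet : ∀ κ, ∃ j : Jt β, ∀ B ∈ r,
      {a | ∃ n ∈ B, ν κ ≤ n ∧ j.1.2.1 a = (u n).2.1 κ} ∈ pU (lab j.1.1) := by
    intro κ
    refine detect (fun n => (u n).1 κ) (fun n => (u n).2.1 κ) (ν κ) (hRf κ) ?_ ?_ (hblinj κ) ?_
      (x κ) r hr1 ?_
    · intro n hn
      exact (hu1 n).2.2.1 κ (hn.trans (hkn n))
    · intro m n hm hmn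
      exact (hu2 m n hmn).2.1 κ ((hm.trans hmn.le).trans (hkn n))
    · intro n e he
      exact ⟨(u n).1, (hu1 n).1, he⟩
    · intro U hU
      exact hr2 _ ((continuous_apply κ).continuousAt.preimage_mem_nhds hU)
  choose j hj using hdet
  have hsame : ∀ κ κ', (j κ).1.1 = (j κ').1.1 := fun κ κ' =>
    same_set r (hcinj κ) (hcinj κ') (hj κ) (hj κ')
  refine hK (j κ0).1.1 (j κ0).2.2.1 ⟨fun κ => (j κ).1.2, ?_, fun κ => ?_⟩
  · intro κ κ' hee
    by_contra hne
    have hee' : (j κ).1.2 = (j κ').1.2 := hee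
    have h1 := hj κ Set.univ Filter.univ_mem
    have h2 := hj κ' Set.univ Filter.univ_mem
    rw [← hsame κ κ', ← hee'] at h2
    obtain ⟨a, ⟨n, -, hn, han⟩, m, -, hm, ham⟩ :=
      (pU (lab (j κ).1.1)).nonempty_of_mem (inter_mem h1 h2)
    have h3 : (u n).2.1 κ = (u m).2.1 κ' := han.symm.trans ham
    by_cases hnm : n = m
    · subst hnm
      exact (hu1 n).2.2.2 κ κ' (hn.trans (hkn n)) (hm.trans (hkn n)) hne h3
    · exact hbl κ κ' n m hn hm hnm (congrArg bl h3)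
  · show (j κ).1.2 ∈ (j κ0).1.1
    rw [hsame κ0 κ]
    exact (j κ).2.1

/-- Countable pracompactness passes to continuous images. -/
theorem cp_image {X : Type*} {Y : Type*} [TopologicalSpace X] [TopologicalSpace Y] {f : X → Y}
    (hf : Continuous f) (hs : Surjective f) (h : CPp X) : CPp Y := by
  obtain ⟨D, hD, hB⟩ := h
  refine ⟨f '' D, hs.denseRange.dense_image hf hD, fun B hBD hinf => ?_⟩
  have h1 : ∀ b : B, ∃ x ∈ D, f x = b := fun b => hBD b.2
  choose g hgD hg using h1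
  have hginj : Injective g := by
    intro b b' h
    apply Subtype.ext
    rw [← hg b, ← hg b', h]
  have : Infinite B := hinf.to_subtype
  obtain ⟨x, hx⟩ := hB (Set.range g) (by rintro _ ⟨b, rfl⟩; exact hgD b)
    (Set.infinite_range_of_injective hginj)
  refine ⟨f x, fun U hU => ?_⟩
  have h2 := hx (f ⁻¹' U) (hf.continuousAt.preimage_mem_nhds hU)
  have h3 : Set.InjOn f (f ⁻¹' U ∩ Set.range g) := by
    rintro _ ⟨_, ⟨b, rfl⟩⟩ _ ⟨_, ⟨b', rfl⟩⟩ h
    rw [hg, hg] at h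
    rw [Subtype.ext h]
  refine (h2.image h3).mono ?_
  rintro _ ⟨_, ⟨hU', ⟨b, rfl⟩⟩, rfl⟩
  refine ⟨hU', ?_⟩
  rw [hg]
  exact b.2

/-- Restriction to a smaller power. -/
lemma cp_restrict {I K G : Type*} [TopologicalSpace G] [Nonempty G] (e : K ↪ I) (h : CPp (I → G)) :
    CPp (K → G) := by
  classical
  refine cp_image (f := fun x : I → G => fun κ => x (e κ)) ?_ ?_ h
  · exact continuous_pi fun κ => continuous_apply _
  · intro y
    refine ⟨fun i => if h : ∃ κ, e κ = i then y h.choose else Classical.arbitrary G, ?_⟩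
    funext κ
    have h : ∃ κ', e κ' = e κ := ⟨κ, rfl⟩
    show (if h : ∃ κ', e κ' = e κ then y h.choose else Classical.arbitrary G) = y κ
    rw [dif_pos h]
    exact congrArg y (e.injective h.choose_spec)

/-- The main theorem. -/
theorem cp_iff (hβ : 1 ≤ β) (I : Type*) : CPp (I → GG β) ↔ ENat.card I < β := by
  classical
  refine ⟨fun h => ?_, cp_pow⟩
  by_contra hcon
  rw [not_lt] at hcon
  induction β using ENat.recTopCoe with
  | top =>
    have hI : Infinite I := by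
      rw [← ENat.card_eq_top]
      exact top_le_iff.mp hcon
    refine not_cp_count (K := ℕ) (β := ⊤) id injective_id hβ ?_
      (cp_restrict (Infinite.natEmbedding I) h)
    rintro t - ⟨f, hf, hft⟩
    have h1 : (Set.range f).Infinite := Set.infinite_range_of_injective hf
    exact h1 ((Finset.finite_toSet t).subset (by rintro _ ⟨n, rfl⟩; exact Finset.mem_coe.mpr (hft n)))
  | coe n =>
    have hemb : Nonempty (Fin n ↪ I) := by
      rcases finite_or_infinite I with hf | hi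
      · have : Fintype I := Fintype.ofFinite I
        rw [ENat.card_eq_coe_fintype_card] at hcon
        have h2 : n ≤ Fintype.card I := by exact_mod_cast hcon
        apply Function.Embedding.nonempty_of_card_le
        rw [Fintype.card_fin]
        exact h2
      · exact ⟨(Fin.valEmbedding).trans (Infinite.natEmbedding I)⟩
    obtain ⟨e⟩ := hemb
    refine not_cp_count (K := Fin n) (β := (n : ℕ∞)) (fun i => i.1) Fin.val_injective hβ ?_
      (cp_restrict e h)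
    rintro t ht ⟨f, hf, hft⟩
    have h3 : t.card < n := by exact_mod_cast ht
    have h4 : (Finset.univ.image f).card = n := by
      rw [Finset.card_image_of_injective _ hf, Finset.card_univ, Fintype.card_fin]
    have h5 : (Finset.univ.image f).card ≤ t.card := by
      apply Finset.card_le_card
      intro y hy
      obtain ⟨i, -, rfl⟩ := Finset.mem_image.mp hy
      exact hft i
    omega

end Pool.Agent.H70.SqG
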