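import Pool.Agent.H70.SqG.Grp

/-!
# The topology of `GG β`

`GG β` is a Hausdorff topological group with the countable dense set `Om`; sequences with new generators do not accumulate (`case1`, `case2`).
-/

set_option autoImplicit false
open Filter Function Topology

namespace Pool.Agent.H70.SqG

variable {β : ℕ∞}

/-- The evaluation at all tasks. -/
noncomputable def ev : GG β →+ (Task β → ZMod 2) where
  toFun g T := chi (Phi T) g
  map_zero' := funext fun _ => map_zero _
  map_add' g h := funext fun _ => map_add _ g h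

lemma ev_apply (g : GG β) (T : Task β) : ev g T = chi (Phi T) g := rfl

noncomputable instance : TopologicalSpace (GG β) := TopologicalSpace.induced ev inferInstance

instance : IsTopologicalAddGroup (GG β) := topologicalAddGroup_induced ev

lemma continuous_chi (T : Task β) : Continuous (chi (Phi T) : GG β → ZMod 2) :=
  (continuous_apply T).comp (continuous_induced_dom (f := ev))

lemma nhds_of_chi (T : Task β) (g : GG β) : {h : GG β | chi (Phi T) h = chi (Phi T) g} ∈ 𝓝 g :=
  (continuous_chi T).continuousAt.preimage_mem_nhds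
    ((isOpen_discrete {chi (Phi T) g}).mem_nhds rfl)

lemma exists_finset {g : GG β} {U : Set (GG β)} (hU : U ∈ 𝓝 g) : ∃ S : Finset (Task β),
    ∀ h : GG β, (∀ T ∈ S, chi (Phi T) h = chi (Phi T) g) → h ∈ U := by
  rw [nhds_induced, mem_comap] at hU
  obtain ⟨t, ht, htU⟩ := hU
  rw [nhds_pi, Filter.mem_pi] at ht
  obtain ⟨I, hI, t', ht', hIt⟩ := ht
  refine ⟨hI.toFinset, fun h hh => htU (hIt ?_)⟩
  intro T hT
  have h1 := hh T (hI.mem_toFinset.mpr hT)
  rw [← ev_apply, ← ev_apply] at h1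
  rw [h1]
  exact mem_of_mem_nhds (ht' T)

/-! ### thin sets -/

lemma Thin.mono {C C' : Set Om} (h : C ⊆ C') (hC : Thin C') : Thin C := by
  obtain ⟨c, hc⟩ := hC
  exact ⟨c, fun x hx => hc x (h hx)⟩

lemma thin_union {C : ℕ → Set Om} (h1 : ∀ n, Set.InjOn bl (C n))
    (h2 : ∀ n, ∀ x ∈ C n, n ≤ bl x) : Thin (⋃ n, C n) := by
  classical
  refine ⟨fun n k => if h : ∃ x ∈ C n, bl x = k then h.choose else Classical.arbitrary Om, ?_⟩
  intro x hx
  obtain ⟨n, hn⟩ := Set.mem_iUnion.mp hx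
  refine ⟨n, h2 n x hn, ?_⟩
  have h : ∃ x' ∈ C n, bl x' = bl x := ⟨x, hn, rfl⟩
  show (if h : ∃ x' ∈ C n, bl x' = bl x then h.choose else Classical.arbitrary Om) = x
  rw [dif_pos h]
  exact h1 n h.choose_spec.1 hn h.choose_spec.2

lemma thin_sel {C : Set Om} (h : Set.InjOn bl C) : Thin C := by
  refine Thin.mono (C' := ⋃ n, {x | x ∈ C ∧ n = 0}) ?_ (thin_union ?_ ?_)
  · intro x hx
    exact Set.mem_iUnion.mpr ⟨0, hx, rfl⟩
  · intro n
    exact h.mono fun x hx => hx.1
  · rintro n x ⟨-, rfl⟩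
    exact Nat.zero_le _

/-! ### the ultrafilters of the generators -/

lemma rho_finite {j : Jt β} {F : Set Om} (hF : F.Finite) : F ∉ rho (Sum.inr j : Io β) := by
  rw [mem_rho_inr]
  exact fun h => pU_infinite h (hF.preimage (sel_inj j.1.2).injOn)

lemma sep_sel {N : Set (Jt β)} (hN : N.Countable) : ∃ O : Jt β → Set Om,
    (∀ j ∈ N, O j ∈ rho (Sum.inr j : Io β)) ∧ (∀ j, O j ⊆ Set.range j.1.2.1) ∧
      ∀ j ∈ N, ∀ j' ∈ N, j ≠ j' → Disjoint (O j) (O j') := by
  classical
  obtain ⟨U, hU, hd⟩ := sepS lab_inj ((fun j : Jt β => j.1.1) '' N) (hN.image _)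
    (fun t => t.image (fun e : Sel => e.1)) (by
      rintro t - f hf
      obtain ⟨e, -, rfl⟩ := Finset.mem_image.mp hf
      exact sel_inj e)
  refine ⟨fun j => j.1.2.1 '' U j.1.1, ?_, ?_, ?_⟩
  · intro j hj
    rw [mem_rho_inr]
    refine mem_of_superset (hU j.1.1 ⟨j, hj, rfl⟩) ?_
    intro a ha
    exact ⟨a, ha, rfl⟩
  · rintro j _ ⟨a, -, rfl⟩
    exact ⟨a, rfl⟩
  · intro j hj j' hj' hne
    by_cases ht : j.1.1 = j'.1.1
    · have hee : j.1.2 ≠ j'.1.2 := fun h => hne (Subtype.ext (Prod.ext ht h))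
      have hmem : j'.1.2 ∈ j.1.1 := by
        rw [ht]
        exact j'.2.1
      refine (j.2.2.2 _ j.2.1 _ hmem hee).mono ?_ ?_
      · rintro _ ⟨a, -, rfl⟩
        exact ⟨a, rfl⟩
      · rintro _ ⟨a, -, rfl⟩
        exact ⟨a, rfl⟩
    · rw [Set.disjoint_left]
      rintro _ ⟨a, ha, rfl⟩ ⟨b, hb, hab⟩
      exact hd j.1.1 ⟨j, hj, rfl⟩ j'.1.1 ⟨j', hj', rfl⟩ ht j.1.2.1
        (Finset.mem_image.mpr ⟨_, j.2.1, rfl⟩) j'.1.2.1 (Finset.mem_image.mpr ⟨_, j'.2.1, rfl⟩)
        a ha b hb hab.symm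

lemma injOn_range (e : Sel) : Set.InjOn bl (Set.range e.1) := by
  rintro _ ⟨a, rfl⟩ _ ⟨b, rfl⟩ h
  rw [e.2 h]

lemma finite_inr (g : GG β) : {j : Jt β | g (Sum.inr j) ≠ 0}.Finite := by
  refine ((Finset.finite_toSet g.support).preimage Sum.inr_injective.injOn).subset ?_
  intro e he
  exact Finset.mem_coe.mpr (Finsupp.mem_support_iff.mpr he)

lemma finite_inl (g : GG β) : {y : Om | g (Sum.inl y) ≠ 0}.Finite := by
  refine ((Finset.finite_toSet g.support).preimage Sum.inl_injective.injOn).subset ?_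
  intro e he
  exact Finset.mem_coe.mpr (Finsupp.mem_support_iff.mpr he)

lemma finite_block (k : ℕ) : {y : Om | bl y = k}.Finite := by
  refine (Set.finite_range (fun z : (((Fin k → Bool) → Bool) × Fin ((k + 1) * (k + 1) + 1)) =>
    (⟨k, z⟩ : Om))).subset ?_
  rintro ⟨k', z⟩ h
  have h' : k' = k := h
  subst h'
  exact ⟨z, rfl⟩

/-! ### Hausdorff -/

lemma exists_task {O : ℕ → Set Om} (g : ℕ → GG β) (hO : Pairwise (Disjoint on O))
    (hT : Thin (⋃ n, O n)) : ∃ T : Task β, ∀ m, chi (O m) (g m) = 1 →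
      (∀ v ∈ (g m).support, {y | ∃ n, m < n ∧ y ∈ O n} ∉ rho v) → chi (Phi T) (g m) = 1 :=
  ⟨⟨(O, g), hT⟩, fun _ h1 h2 => chi_phi hO h1 h2⟩

/-- one element -/
lemma exists_task_one {g : GG β} {X : Set Om} (hX : Set.InjOn bl X) (h : chi X g = 1) :
    ∃ T : Task β, chi (Phi T) g = 1 := by
  have hd : Pairwise (Disjoint on fun n : ℕ => {y : Om | y ∈ X ∧ n = 0}) := by
    intro m n hmn
    show Disjoint _ _
    rw [Set.disjoint_left]
    rintro y ⟨-, rfl⟩ ⟨-, rfl⟩
    exact hmn rfl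
  have hT : Thin (⋃ n : ℕ, {y : Om | y ∈ X ∧ n = 0}) := by
    refine Thin.mono ?_ (thin_sel hX)
    intro y hy
    obtain ⟨n, hn⟩ := Set.mem_iUnion.mp hy
    exact hn.1
  obtain ⟨T, hTT⟩ := exists_task (fun _ => g) hd hT
  refine ⟨T, hTT 0 ?_ ?_⟩
  · have h1 : {y : Om | y ∈ X ∧ (0 : ℕ) = 0} = X := by
      ext y
      simp
    rw [h1]
    exact h
  · intro v _
    have h1 : {y : Om | ∃ n, 0 < n ∧ y ∈ {y : Om | y ∈ X ∧ n = 0}} = ∅ := by
      ext y
      simp only [Set.mem_ofPred_eq, Set.mem_empty_iff_false, iff_false]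
      rintro ⟨n, hn, -, hn'⟩
      omega
    rw [h1]
    exact (rho v).empty_notMem

lemma exists_chi_ne {g : GG β} (hg : g ≠ 0) : ∃ T : Task β, chi (Phi T) g = 1 := by
  by_cases h : ∃ e, g (Sum.inr e) ≠ 0
  · obtain ⟨e, he⟩ := h
    obtain ⟨O, hO1, hO2, hO3⟩ := sep_sel (finite_inr g).countable
    have hmem : O e \ {y | g (Sum.inl y) ≠ 0} ∈ rho (Sum.inr e : Io β) := by
      have h1 := Ultrafilter.compl_mem_iff_notMem.mpr (rho_finite (j := e) (finite_inl g))
      exact (rho (Sum.inr e)).inter_sets (hO1 e he) h1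
    refine exists_task_one (X := O e \ {y | g (Sum.inl y) ≠ 0}) ?_ ?_
    · exact (injOn_range e.1.2).mono (Set.sdiff_subset.trans (hO2 e))
    · refine chi_one he hmem ?_
      rintro (y | e') hv hne hX
      · exact hX.2 (Finsupp.mem_support_iff.mp hv)
      · have he' : g (Sum.inr e') ≠ 0 := Finsupp.mem_support_iff.mp hv
        have hee : e ≠ e' := fun h => hne (by rw [h])
        have h1 := (rho (Sum.inr e' : Io β)).inter_sets hX (hO1 e' he')
        have h2 : (O e \ {y | g (Sum.inl y) ≠ 0}) ∩ O e' = ∅ := by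
          apply Set.disjoint_iff_inter_eq_empty.mp
          exact (hO3 e he e' he' hee).mono_left Set.sdiff_subset
        rw [h2] at h1
        exact (rho (Sum.inr e' : Io β)).empty_notMem h1
  · push Not at h
    obtain ⟨v, hv⟩ := Finsupp.ne_iff.mp hg
    rcases v with y | e
    · refine exists_task_one (X := {y}) (Set.injOn_singleton _ _) ?_
      refine chi_one hv (mem_rho_inl.mpr rfl) ?_
      rintro (y' | e') hv' hne hX
      · have h1 : y' = y := hX
        exact hne (by rw [h1])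
      · exact Finsupp.mem_support_iff.mp hv' (h e')
    · exact absurd (h e) hv

lemma ev_injective : Injective (ev : GG β →+ (Task β → ZMod 2)) := by
  rw [injective_iff_map_eq_zero]
  intro g hg
  by_contra hne
  obtain ⟨T, hT⟩ := exists_chi_ne hne
  have h1 : ev g T = 0 := by rw [hg]; rfl
  rw [ev_apply, hT] at h1
  exact one_ne_zero h1

instance : T2Space (GG β) :=
  T2Space.of_injective_continuous ev_injective continuous_induced_dom

/-! ### density -/

/-- The generators in `Om`. -/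
noncomputable def zz (y : Om) : GG β := Finsupp.single (Sum.inl y) 1

lemma zz_injective : Injective (zz : Om → GG β) := by
  intro y y' h
  exact Sum.inl_injective ((Finsupp.single_left_inj one_ne_zero).mp h)

open Classical in
lemma chi_zz (X : Set Om) (y : Om) : chi X (zz y : GG β) = if y ∈ X then 1 else 0 := by
  unfold zz
  rw [chi_single]
  by_cases h : y ∈ X
  · rw [if_pos h, if_pos (mem_rho_inl.mpr h)]
  · rw [if_neg h, if_neg (fun h' => h (mem_rho_inl.mp h'))]

lemma dense_zz : Dense (Set.range (zz : Om → GG β)) := by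
  classical
  intro g
  rw [mem_closure_iff_nhds]
  intro U hU
  obtain ⟨S, hS⟩ := exists_finset hU
  obtain ⟨y, hy⟩ := dens S (fun T => chi (Phi T) g)
  refine ⟨zz y, hS _ fun T hT => ?_, ⟨y, rfl⟩⟩
  rw [chi_zz]
  rcases zmod2 (chi (Phi T) g) with h | h
  · rw [if_neg, h]
    intro hyT
    have := (hy T hT).mp hyT
    rw [h] at this
    exact zero_ne_one this
  · rw [if_pos ((hy T hT).mpr h), h]

theorem separable_GG : TopologicalSpace.SeparableSpace (GG β) :=
  ⟨⟨Set.range zz, Set.countable_range zz, dense_zz⟩⟩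

theorem boolean_GG (x : GG β) : x + x = 0 := by
  apply Finsupp.ext
  intro v
  rw [Finsupp.add_apply, Finsupp.zero_apply]
  exact CharTwo.add_self_eq_zero _

/-- The generator `(t, e)` is the limit of `e` along `pU (lab t)`. -/
theorem tendsto_gen (j : Jt β) : Tendsto (fun a => (zz (j.1.2.1 a) : GG β))
    (pU (lab j.1.1) : Filter ℕ) (𝓝 (Finsupp.single (Sum.inr j) 1)) := by
  classical
  intro U hU
  obtain ⟨S, hS⟩ := exists_finset hU
  have h2 : ∀ T ∈ S, {a | chi (Phi T) (zz (j.1.2.1 a) : GG β) =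
      chi (Phi T) (Finsupp.single (Sum.inr j) 1)} ∈ pU (lab j.1.1) := by
    intro T _
    by_cases hT : Phi T ∈ rho (Sum.inr j : Io β)
    · have h3 : {a | j.1.2.1 a ∈ Phi T} ∈ pU (lab j.1.1) := mem_rho_inr.mp hT
      have h4 : chi (Phi T) (Finsupp.single (Sum.inr j) 1 : GG β) = 1 := by
        rw [chi_single, if_pos hT]
      rw [h4]
      refine mem_of_superset h3 ?_
      intro a ha
      have ha' : j.1.2.1 a ∈ Phi T := ha
      show chi (Phi T) (zz (j.1.2.1 a) : GG β) = 1
      rw [chi_zz, if_pos ha']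
    · have h3 : {a | j.1.2.1 a ∈ Phi T} ∉ pU (lab j.1.1) := fun h => hT (mem_rho_inr.mpr h)
      have h4 : chi (Phi T) (Finsupp.single (Sum.inr j) 1 : GG β) = 0 := by
        rw [chi_single, if_neg hT]
      rw [h4]
      refine mem_of_superset (Ultrafilter.compl_mem_iff_notMem.mpr h3) ?_
      intro a ha
      have ha' : j.1.2.1 a ∉ Phi T := ha
      show chi (Phi T) (zz (j.1.2.1 a) : GG β) = 0
      rw [chi_zz, if_neg ha']
  have h4 : (⋂ T ∈ S, {a | chi (Phi T) (zz (j.1.2.1 a) : GG β) =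
      chi (Phi T) (Finsupp.single (Sum.inr j) 1)}) ∈ pU (lab j.1.1) :=
    (Filter.biInter_finset_mem S).mpr h2
  rw [mem_map]
  refine mem_of_superset h4 ?_
  intro a ha
  exact hS _ fun T hT => Set.mem_iInter₂.mp ha T hT

/-! ### sequences without accumulation points -/

/-- A sequence with new generators outside `Om` does not accumulate. -/
theorem case1 (g : ℕ → GG β) (e : ℕ → Jt β) (h1 : ∀ n, g n (Sum.inr (e n)) ≠ 0)
    (h2 : ∀ m n, m < n → g m (Sum.inr (e n)) = 0) (gg : GG β) :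
    ∃ U ∈ 𝓝 gg, {n | g n ∈ U}.Finite := by
  classical
  set N : Set (Jt β) := {e' | (∃ n, g n (Sum.inr e') ≠ 0) ∨ gg (Sum.inr e') ≠ 0} with hN
  have hNc : N.Countable := by
    have : N ⊆ (⋃ n, {e' | g n (Sum.inr e') ≠ 0}) ∪ {e' | gg (Sum.inr e') ≠ 0} := by
      rintro e' (⟨n, hn⟩ | h)
      · exact Or.inl (Set.mem_iUnion.mpr ⟨n, hn⟩)
      · exact Or.inr h
    exact ((Set.countable_iUnion fun n => (finite_inr (g n)).countable).union
      (finite_inr gg).countable).mono this
  have heN : ∀ n, e n ∈ N := fun n => Or.inl ⟨n, h1 n⟩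
  have heinj : Injective e := by
    apply Function.Injective.of_lt_imp_ne
    intro m n hmn he
    apply h1 m
    rw [he]
    exact h2 m n hmn
  obtain ⟨O', hO1, hO2, hO3⟩ := sep_sel hNc
  let O : ℕ → Set Om := fun n => {y | y ∈ O' (e n) ∧ n ≤ bl y ∧ (∀ m ≤ n, g m (Sum.inl y) = 0) ∧
    gg (Sum.inl y) = 0 ∧ gg (Sum.inr (e n)) = 0}
  have hdisj : Pairwise (Disjoint on O) := by
    intro m n hmn
    show Disjoint (O m) (O n)
    exact (hO3 _ (heN m) _ (heN n) (heinj.ne hmn)).mono (fun y hy => hy.1) (fun y hy => hy.1)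
  have hthin : Thin (⋃ n, O n) := by
    apply thin_union
    · intro n
      exact (injOn_range (e n).1.2).mono fun y hy => hO2 _ hy.1
    · intro n y hy
      exact hy.2.1
  obtain ⟨T, hT⟩ := exists_task (fun n => g n - gg) hdisj hthin
  refine ⟨_, nhds_of_chi T gg, ?_⟩
  have hbad : {n | gg (Sum.inr (e n)) ≠ 0}.Finite := (finite_inr gg).preimage heinj.injOn
  refine hbad.subset ?_
  intro m hm
  by_contra hgood
  have hgood' : gg (Sum.inr (e m)) = 0 := not_not.mp hgood
  have hmem : O m ∈ rho (Sum.inr (e m) : Io β) := by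
    have k1 := mem_rho_inr.mp (hO1 _ (heN m))
    have k2 : {a | m ≤ bl ((e m).1.2.1 a)} ∈ pU (lab (e m).1.1) := by
      apply pU_cofinite
      refine ((Set.finite_lt_nat m).preimage ((e m).1.2.2).injOn).subset ?_
      intro a ha
      have ha' : ¬ m ≤ bl ((e m).1.2.1 a) := ha
      exact not_le.mp ha'
    have k3 : {a | ∀ k ≤ m, g k (Sum.inl ((e m).1.2.1 a)) = 0} ∈ pU (lab (e m).1.1) := by
      apply pU_cofinite
      have hf : (⋃ k ∈ Finset.range (m + 1), {y : Om | g k (Sum.inl y) ≠ 0}).Finite :=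
        (Finset.finite_toSet _).biUnion fun k _ => finite_inl (g k)
      refine (hf.preimage (sel_inj (e m).1.2).injOn).subset ?_
      intro a ha
      have ha' : ¬ ∀ k ≤ m, g k (Sum.inl ((e m).1.2.1 a)) = 0 := ha
      push Not at ha'
      obtain ⟨k, hk, hka⟩ := ha'
      exact Set.mem_biUnion (Finset.mem_coe.mpr (Finset.mem_range.mpr (Nat.lt_succ_of_le hk))) hka
    have k4 : {a | gg (Sum.inl ((e m).1.2.1 a)) = 0} ∈ pU (lab (e m).1.1) := by
      apply pU_cofinite
      refine ((finite_inl gg).preimage (sel_inj (e m).1.2).injOn).subset ?_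
      intro a ha
      exact ha
    rw [mem_rho_inr]
    refine mem_of_superset (inter_mem (inter_mem k1 k2) (inter_mem k3 k4)) ?_
    rintro a ⟨⟨a1, a2⟩, a3, a4⟩
    exact ⟨a1, a2, a3, a4, hgood'⟩
  have hsupp : ∀ v ∈ (g m - gg).support, g m v ≠ 0 ∨ gg v ≠ 0 := by
    intro v hv
    by_contra hcon
    push Not at hcon
    apply Finsupp.mem_support_iff.mp hv
    rw [Finsupp.sub_apply, hcon.1, hcon.2, sub_zero]
  have hone : chi (O m) (g m - gg) = 1 := by
    refine chi_one (u := Sum.inr (e m)) ?_ hmem ?_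
    · rw [Finsupp.sub_apply, hgood', sub_zero]
      exact h1 m
    · rintro (y | e') hv hne hX
      · have hy : y ∈ O m := hX
        rcases hsupp _ hv with h | h
        · exact h (hy.2.2.1 m le_rfl)
        · exact h hy.2.2.2.1
      · have he'N : e' ∈ N := by
          rcases hsupp _ hv with h | h
          · exact Or.inl ⟨m, h⟩
          · exact Or.inr h
        have hee : e m ≠ e' := fun h => hne (by rw [h])
        have k1 := (rho (Sum.inr e' : Io β)).inter_sets hX (hO1 e' he'N)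
        have k2 : O m ∩ O' e' = ∅ := by
          apply Set.disjoint_iff_inter_eq_empty.mp
          exact (hO3 _ (heN m) _ he'N hee).mono_left fun y hy => hy.1
        rw [k2] at k1
        exact (rho (Sum.inr e' : Io β)).empty_notMem k1
  have htail : ∀ v ∈ (g m - gg).support, {y | ∃ n, m < n ∧ y ∈ O n} ∉ rho v := by
    rintro (y | e') hv hX
    · obtain ⟨n, hn, hy⟩ := mem_rho_inl.mp hX
      rcases hsupp _ hv with h | h
      · exact h (hy.2.2.1 m hn.le)
      · exact h hy.2.2.2.1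
    · have he'N : e' ∈ N := by
        rcases hsupp _ hv with h | h
        · exact Or.inl ⟨m, h⟩
        · exact Or.inr h
      have k1 := (rho (Sum.inr e' : Io β)).inter_sets hX (hO1 e' he'N)
      obtain ⟨y, ⟨n, hn, hy⟩, hy'⟩ := (rho (Sum.inr e' : Io β)).nonempty_of_mem k1
      have hee : e n ≠ e' := by
        intro h
        rcases hsupp _ hv with h3 | h3
        · apply h3
          rw [← h]
          exact h2 m n hn
        · apply h3
          rw [← h]
          exact hy.2.2.2.2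
      exact Set.disjoint_left.mp (hO3 _ (heN n) _ he'N hee) hy.1 hy'
  have hfin := hT m hone htail
  have hm' : chi (Phi T) (g m) = chi (Phi T) gg := hm
  rw [map_sub, hm', sub_self] at hfin
  exact zero_ne_one hfin

/-- A sequence with new elements of `Om`, indices in `B`. -/
theorem case2 (g : ℕ → GG β) (c : ℕ → Om) (B : Set ℕ) (R : Set (Jt β))
    (h1 : ∀ n ∈ B, g n (Sum.inl (c n)) ≠ 0)
    (h2 : ∀ m ∈ B, ∀ n ∈ B, m < n → g m (Sum.inl (c n)) = 0)
    (hbl : Set.InjOn (fun n => bl (c n)) B) (hR : ∀ n e, g n (Sum.inr e) ≠ 0 → e ∈ R) (gg : GG β)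
    (hB : ∀ e : Jt β, (e ∈ R ∨ gg (Sum.inr e) ≠ 0) →
      {a | ∃ n ∈ B, e.1.2.1 a = c n} ∉ pU (lab e.1.1)) :
    ∃ U ∈ 𝓝 gg, {n | n ∈ B ∧ g n ∈ U}.Finite := by
  classical
  have hc : Set.InjOn c B := fun a ha b hb h => hbl ha hb (congrArg bl h)
  let O : ℕ → Set Om := fun n => {y | y = c n ∧ n ∈ B ∧ gg (Sum.inl (c n)) = 0}
  have hdisj : Pairwise (Disjoint on O) := by
    intro m n hmn
    show Disjoint (O m) (O n)
    rw [Set.disjoint_left]
    rintro y ⟨hy, hm, -⟩ ⟨hy', hn, -⟩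
    exact hmn (hc hm hn (hy.symm.trans hy'))
  have hthin : Thin (⋃ n, O n) := by
    refine Thin.mono (C' := c '' B) ?_ (thin_sel ?_)
    · intro y hy
      obtain ⟨n, hn, hnB, -⟩ := Set.mem_iUnion.mp hy
      exact ⟨n, hnB, hn.symm⟩
    · rintro _ ⟨a, ha, rfl⟩ _ ⟨b, hb, rfl⟩ h
      rw [hbl ha hb h]
  obtain ⟨T, hT⟩ := exists_task (fun n => g n - gg) hdisj hthin
  refine ⟨_, nhds_of_chi T gg, ?_⟩
  have hbad : (B ∩ {n | gg (Sum.inl (c n)) ≠ 0}).Finite := by
    refine Set.Finite.of_finite_image ((finite_inl gg).subset ?_) (hc.mono Set.inter_subset_left)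
    rintro _ ⟨n, ⟨-, hn⟩, rfl⟩
    exact hn
  refine hbad.subset ?_
  rintro m ⟨hmB, hm⟩
  by_contra hgood
  have hgood' : gg (Sum.inl (c m)) = 0 := by
    by_contra h
    exact hgood ⟨hmB, h⟩
  have hsupp : ∀ v ∈ (g m - gg).support, g m v ≠ 0 ∨ gg v ≠ 0 := by
    intro v hv
    by_contra hcon
    push Not at hcon
    apply Finsupp.mem_support_iff.mp hv
    rw [Finsupp.sub_apply, hcon.1, hcon.2, sub_zero]
  have hone : chi (O m) (g m - gg) = 1 := by
    refine chi_one (u := Sum.inl (c m)) ?_ (mem_rho_inl.mpr ⟨rfl, hmB, hgood'⟩) ?_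
    · rw [Finsupp.sub_apply, hgood', sub_zero]
      exact h1 m hmB
    · rintro (y | e') hv hne hX
      · have hy : y = c m := (mem_rho_inl.mp hX).1
        exact hne (by rw [hy])
      · refine rho_finite (j := e') (Set.finite_singleton (c m)) ?_
        refine mem_of_superset hX ?_
        intro y hy
        exact hy.1
  have htail : ∀ v ∈ (g m - gg).support, {y | ∃ n, m < n ∧ y ∈ O n} ∉ rho v := by
    rintro (y | e') hv hX
    · obtain ⟨n, hn, hy, hnB, hy0⟩ := mem_rho_inl.mp hX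
      rw [hy] at hv
      rcases hsupp _ hv with h | h
      · exact h (h2 m hmB n hnB hn)
      · exact h hy0
    · have he' : e' ∈ R ∨ gg (Sum.inr e') ≠ 0 := by
        rcases hsupp _ hv with h | h
        · exact Or.inl (hR m e' h)
        · exact Or.inr h
      apply hB e' he'
      refine mem_of_superset (mem_rho_inr.mp hX) ?_
      rintro a ⟨n, -, hy, hnB, -⟩
      exact ⟨n, hnB, hy⟩
  have hfin := hT m hone htail
  have hm' : chi (Phi T) (g m) = chi (Phi T) gg := hm
  rw [map_sub, hm', sub_self] at hfin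
  exact zero_ne_one hfin

end Pool.Agent.H70.SqG
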