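import Mathlib

/-!
# The ultrafilters `pU x`

For every `x : ℕ → Bool` an ultrafilter `pU x` on `ℕ`, such that countably many of them, with finitely many injections for each of them,
can be separated (`sepS`). The ultrafilter `pU x` contains the union of the blocks `Ib n`, `n ∈ AA x`, for an almost disjoint
family `AA x`, and contains no set with at most `N * ((n + 1) * n! ^ 2)` points in the block `Ib n` for all `n`.
-/

set_option autoImplicit false
open Filter Function

namespace Pool.Agent.H70.SqG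

/-- The blocks of `ℕ`. -/
def Ib (n : ℕ) : Finset ℕ := Finset.Ico (n.factorial ^ 2) ((n + 1).factorial ^ 2)

lemma mem_Ib {n a : ℕ} : a ∈ Ib n ↔ n.factorial ^ 2 ≤ a ∧ a < (n + 1).factorial ^ 2 := by
  unfold Ib
  rw [Finset.mem_Ico]

lemma Ib_card (n : ℕ) : (Ib n).card = n * (n + 2) * n.factorial ^ 2 := by
  unfold Ib
  rw [Nat.card_Ico, Nat.factorial_succ]
  have h : ((n + 1) * n.factorial) ^ 2 = n * (n + 2) * n.factorial ^ 2 + n.factorial ^ 2 := by ring
  rw [h, Nat.add_sub_cancel]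

lemma Ib_lt {m n b : ℕ} (hm : b ∈ Ib m) (h : m < n) : b < n.factorial ^ 2 :=
  lt_of_lt_of_le (mem_Ib.mp hm).2 (Nat.pow_le_pow_left (Nat.factorial_le h) 2)

lemma Ib_unique {m n b : ℕ} (hm : b ∈ Ib m) (hn : b ∈ Ib n) : m = n := by
  rcases lt_trichotomy m n with h | h | h
  · exact absurd (Ib_lt hm h) (not_lt.mpr (mem_Ib.mp hn).1)
  · exact h
  · exact absurd (Ib_lt hn h) (not_lt.mpr (mem_Ib.mp hm).1)

/-- Small sets. -/
def SmallN (X : Set ℕ) : Prop :=
  ∃ N : ℕ, ∀ n, ∀ S : Finset ℕ, (∀ a ∈ S, a ∈ Ib n ∧ a ∈ X) →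
    S.card ≤ N * ((n + 1) * n.factorial ^ 2)

lemma SmallN.mono {X Y : Set ℕ} (h : X ⊆ Y) (hY : SmallN Y) : SmallN X := by
  obtain ⟨N, hN⟩ := hY
  exact ⟨N, fun n S hS => hN n S fun a ha => ⟨(hS a ha).1, h (hS a ha).2⟩⟩

lemma SmallN.union {X Y : Set ℕ} (hX : SmallN X) (hY : SmallN Y) : SmallN (X ∪ Y) := by
  classical
  obtain ⟨N, hN⟩ := hX
  obtain ⟨N', hN'⟩ := hY
  refine ⟨N + N', fun n S hS => ?_⟩
  have h1 := hN n (S.filter (fun a => a ∈ X)) (by
    intro a ha
    rw [Finset.mem_filter] at ha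
    exact ⟨(hS a ha.1).1, ha.2⟩)
  have h2 := hN' n (S.filter (fun a => ¬ a ∈ X)) (by
    intro a ha
    rw [Finset.mem_filter] at ha
    exact ⟨(hS a ha.1).1, (hS a ha.1).2.resolve_left ha.2⟩)
  have h3 : (S.filter (fun a => a ∈ X)).card + (S.filter (fun a => ¬ a ∈ X)).card = S.card :=
    Finset.card_filter_add_card_filter_not _
  rw [add_mul]
  omega

lemma pos_bound (n : ℕ) : 0 < (n + 1) * n.factorial ^ 2 :=
  Nat.mul_pos (Nat.succ_pos n) (pow_pos (Nat.factorial_pos n) 2)

lemma smallN_finite {X : Set ℕ} (hX : X.Finite) : SmallN X := by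
  refine ⟨hX.toFinset.card, fun n S hS => ?_⟩
  have h1 : S ⊆ hX.toFinset := fun a ha => hX.mem_toFinset.mpr (hS a ha).2
  exact (Finset.card_le_card h1).trans (Nat.le_mul_of_pos_right _ (pos_bound n))

/-- Codes of finite sequences. -/
noncomputable def code : List Bool → ℕ := (Countable.exists_injective_nat (List Bool)).choose

lemma code_inj : Injective code := (Countable.exists_injective_nat (List Bool)).choose_spec

/-- An almost disjoint family. -/
def AA (e : ℕ → Bool) : Set ℕ := {n | ∃ k, n = code ((List.range k).map e)}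

lemma list_eq {e e' : ℕ → Bool} {k k' : ℕ}
    (h : code ((List.range k).map e) = code ((List.range k').map e')) :
    k = k' ∧ ∀ i < k, e i = e' i := by
  have h1 := code_inj h
  have h2 : k = k' := by
    have := congrArg List.length h1
    simpa using this
  subst h2
  refine ⟨rfl, fun i hi => ?_⟩
  have h3 := List.map_inj_left.mp h1 i (List.mem_range.mpr hi)
  exact h3

lemma AA_infinite (e : ℕ → Bool) : (AA e).Infinite := by
  refine Set.infinite_of_injective_forall_mem (f := fun k => code ((List.range k).map e)) ?_ ?_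
  · intro k k' h
    exact (list_eq h).1
  · intro k
    exact ⟨k, rfl⟩

lemma AA_inter {e e' : ℕ → Bool} (h : e ≠ e') : ∃ K, ∀ n ∈ AA e, n ∈ AA e' → n < K := by
  obtain ⟨i, hi⟩ := Function.ne_iff.mp h
  refine ⟨(Finset.range (i + 1)).sup (fun k => code ((List.range k).map e)) + 1, ?_⟩
  rintro n ⟨k, rfl⟩ ⟨k', hk'⟩
  obtain ⟨-, h2⟩ := list_eq hk'
  have h3 : k ≤ i := by
    by_contra hc
    exact hi (h2 i (not_le.mp hc))
  have h4 := Finset.le_sup (f := fun k => code ((List.range k).map e))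
    (Finset.mem_range.mpr (Nat.lt_succ_of_le h3))
  exact Nat.lt_succ_of_le h4

/-- The union of the blocks. -/
def BA (e : ℕ → Bool) : Set ℕ := {a | ∃ n ∈ AA e, a ∈ Ib n}

lemma BA_not_small (e : ℕ → Bool) : ¬ SmallN (BA e) := by
  rintro ⟨N, hN⟩
  obtain ⟨n, hn, hNn⟩ := (AA_infinite e).exists_gt N
  have h2 := hN n (Ib n) (fun a ha => ⟨ha, n, hn, ha⟩)
  rw [Ib_card, ← mul_assoc] at h2
  have h3 := Nat.le_of_mul_le_mul_right h2 (pow_pos (Nat.factorial_pos n) 2)
  nlinarith

/-- The filter of the sets which are large in the blocks. -/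
def FF (e : ℕ → Bool) : Filter ℕ where
  sets := {Y | SmallN (BA e \ Y)}
  univ_sets := by
    show SmallN (BA e \ Set.univ)
    rw [Set.sdiff_univ]
    exact smallN_finite Set.finite_empty
  sets_of_superset := by
    intro X Y hX hXY
    exact SmallN.mono (Set.sdiff_subset_sdiff_right hXY) hX
  inter_sets := by
    intro X Y hX hY
    show SmallN (BA e \ (X ∩ Y))
    rw [Set.sdiff_inter]
    exact SmallN.union hX hY

instance (e : ℕ → Bool) : NeBot (FF e) := by
  refine ⟨fun h => ?_⟩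
  have h1 : (∅ : Set ℕ) ∈ FF e := by rw [h]; exact mem_bot
  have h2 : SmallN (BA e \ ∅) := h1
  rw [Set.sdiff_empty] at h2
  exact BA_not_small e h2

/-- The ultrafilter. -/
noncomputable def pU (e : ℕ → Bool) : Ultrafilter ℕ := Ultrafilter.of (FF e)

lemma pU_mem {e : ℕ → Bool} {Y : Set ℕ} (h : SmallN (BA e \ Y)) : Y ∈ pU e :=
  Ultrafilter.of_le (FF e) h

lemma pU_notMem {e : ℕ → Bool} {X : Set ℕ} (h : SmallN X) : X ∉ pU e := by
  rw [← Ultrafilter.compl_mem_iff_notMem]
  refine pU_mem (SmallN.mono ?_ h)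
  rintro a ⟨-, ha⟩
  exact not_not.mp ha

lemma pU_infinite {e : ℕ → Bool} {X : Set ℕ} (h : X ∈ pU e) : X.Infinite := fun hf =>
  pU_notMem (smallN_finite hf) h

lemma pU_cofinite {e : ℕ → Bool} {X : Set ℕ} (h : Xᶜ.Finite) : X ∈ pU e := by
  rw [← compl_compl X, Ultrafilter.compl_mem_iff_notMem]
  exact fun hc => pU_infinite hc h

/-- A ranking of a finite set. -/
lemma exists_rank {Z : Type*} (F : Finset Z) : ∃ rk : Z → ℕ, (∀ z ∈ F, rk z < F.card) ∧
    Set.InjOn rk F := by
  classical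
  refine ⟨fun z => if h : z ∈ F then (F.equivFin ⟨z, h⟩ : ℕ) else 0, ?_, ?_⟩
  · intro z hz
    show (if h : z ∈ F then (F.equivFin ⟨z, h⟩ : ℕ) else 0) < F.card
    rw [dif_pos hz]
    exact (F.equivFin ⟨z, hz⟩).2
  · intro z hz z' hz' h
    have h' : (if h : z ∈ F then (F.equivFin ⟨z, h⟩ : ℕ) else 0) =
      (if h : z' ∈ F then (F.equivFin ⟨z', h⟩ : ℕ) else 0) := h
    rw [dif_pos (Finset.mem_coe.mp hz), dif_pos (Finset.mem_coe.mp hz')] at h'
    exact congrArg Subtype.val (F.equivFin.injective (Fin.ext h'))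

/-- Countably many of the ultrafilters can be separated, whatever finitely many injections we apply. -/
lemma sepS {T Y : Type*} {lab : T → ℕ → Bool} (hlab : Injective lab) (E : Set T) (hE : E.Countable)
    (F : T → Finset (ℕ → Y)) (hF : ∀ t ∈ E, ∀ f ∈ F t, Injective f) :
    ∃ U : T → Set ℕ, (∀ t ∈ E, U t ∈ pU (lab t)) ∧
      ∀ t ∈ E, ∀ t' ∈ E, t ≠ t' → ∀ f ∈ F t, ∀ f' ∈ F t', ∀ a ∈ U t, ∀ b ∈ U t', f a ≠ f' b := by
  classical
  obtain ⟨κ, hκ⟩ := Set.countable_iff_exists_injOn.mp hE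
  have hK : ∀ t, ∃ K, (F t).card ≤ K ∧
      (t ∈ E → ∀ t' ∈ E, κ t' < κ t → ∀ n ∈ AA (lab t), n ∈ AA (lab t') → n < K) := by
    intro t
    have hfin : {t' ∈ E | κ t' < κ t}.Finite := by
      apply Set.Finite.of_finite_image ((Set.finite_lt_nat (κ t)).subset _)
        (hκ.mono (Set.sep_subset _ _))
      rintro _ ⟨t', ht', rfl⟩
      exact ht'.2
    have h1 : ∀ t', ∃ K, t' ≠ t → ∀ n ∈ AA (lab t), n ∈ AA (lab t') → n < K := by
      intro t'
      by_cases h : t' = t
      · exact ⟨0, fun h' => absurd h h'⟩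
      · obtain ⟨K, hK⟩ := AA_inter (hlab.ne (Ne.symm h))
        exact ⟨K, fun _ => hK⟩
    choose K0 hK0 using h1
    refine ⟨max (F t).card (hfin.toFinset.sup K0), le_max_left _ _, fun _ t' ht' hlt n hn hn' => ?_⟩
    have hne : t' ≠ t := by rintro rfl; exact lt_irrefl _ hlt
    exact lt_of_lt_of_le (hK0 t' hne n hn hn') ((Finset.le_sup (f := K0)
      (hfin.mem_toFinset.mpr ⟨ht', hlt⟩)).trans (le_max_right _ _))
  choose K hKF hK using hK
  set DD : T → Set ℕ := fun t => {n ∈ AA (lab t) | K t ≤ n} with hDD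
  have hdisj : ∀ t ∈ E, ∀ t' ∈ E, ∀ n, n ∈ DD t → n ∈ DD t' → t = t' := by
    intro t ht t' ht' n hn hn'
    by_contra hne
    rcases lt_trichotomy (κ t) (κ t') with h | h | h
    · exact absurd (hK t' ht' t ht h n hn'.1 hn.1) (not_lt.mpr hn'.2)
    · exact hne (hκ ht ht' h)
    · exact absurd (hK t ht t' ht' h n hn.1 hn'.1) (not_lt.mpr hn.2)
  choose rk hrk1 hrk2 using fun t => exists_rank (F t)
  refine ⟨fun t => {a | ∃ n ∈ DD t, a ∈ Ib n ∧ ∀ t' ∈ E, ∀ m ∈ DD t', m < n →
    ∀ b ∈ Ib m, ∀ f' ∈ F t', ∀ f ∈ F t, f' b ≠ f a}, ?_, ?_⟩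
  · intro t ht
    apply pU_mem
    refine ⟨K t + 1, fun n S hS => ?_⟩
    by_cases hn : n < K t
    · calc S.card ≤ (Ib n).card := Finset.card_le_card fun a ha => (hS a ha).1
        _ = n * (n + 2) * n.factorial ^ 2 := Ib_card n
        _ ≤ (K t + 1) * (n + 1) * n.factorial ^ 2 := by
          apply Nat.mul_le_mul_right
          nlinarith
        _ = _ := by ring
    · push Not at hn
      have h1 : ∀ a ∈ S, ∃ b, ∃ t' ∈ E, ∃ m ∈ DD t', m < n ∧ b ∈ Ib m ∧ ∃ f' ∈ F t', ∃ f ∈ F t,
          f' b = f a := by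
        intro a ha
        obtain ⟨haI, ⟨n', hn', haI'⟩, hnot⟩ := hS a ha
        have hnn : n' = n := Ib_unique haI' haI
        subst hnn
        by_contra hcon
        apply hnot
        refine ⟨n', ⟨hn', hn⟩, haI, ?_⟩
        intro t' ht' m hm hmn b hb f' hf' f hf heq
        exact hcon ⟨b, t', ht', m, hm, hmn, hb, f', hf', f, hf, heq⟩
      rcases S.eq_empty_or_nonempty with hS0 | ⟨a0, ha0⟩
      · rw [hS0, Finset.card_empty]
        exact Nat.zero_le _
      have hne1 : Nonempty T := ⟨t⟩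
      have hne2 : Nonempty (ℕ → Y) := by
        obtain ⟨-, -, -, -, -, -, -, f', -⟩ := h1 a0 ha0
        exact ⟨f'⟩
      choose! g t' ht' m hm hmn hb f' hf' f hf heq using h1
      have h2 : S.card ≤ ((Finset.range (n.factorial ^ 2)) ×ˢ
          ((Finset.range n) ×ˢ (F t))).card := by
        apply Finset.card_le_card_of_injOn (fun a => (g a, (rk (t' a) (f' a), f a)))
        · intro a ha
          have ha' : a ∈ S := ha
          refine Finset.mem_coe.mpr (Finset.mem_product.mpr ⟨Finset.mem_range.mpr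
            (Ib_lt (hb a ha') (hmn a ha')), Finset.mem_product.mpr ⟨Finset.mem_range.mpr ?_, hf a ha'⟩⟩)
          calc rk (t' a) (f' a) < (F (t' a)).card := hrk1 _ _ (hf' a ha')
            _ ≤ K (t' a) := hKF _
            _ ≤ m a := (hm a ha').2
            _ ≤ n := (hmn a ha').le
        · intro a ha a' ha' hgg
          have ha1 : a ∈ S := ha
          have ha2 : a' ∈ S := ha'
          simp only [Prod.mk.injEq] at hgg
          obtain ⟨g1, g2, g3⟩ := hgg
          have hm1 : m a = m a' := Ib_unique (hb a ha1) (by rw [g1]; exact hb a' ha2)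
          have ht1 : t' a = t' a' := hdisj _ (ht' a ha1) _ (ht' a' ha2) (m a) (hm a ha1)
            (by rw [hm1]; exact hm a' ha2)
          have hf1 : f' a = f' a' := by
            apply hrk2 (t' a) (Finset.mem_coe.mpr (hf' a ha1))
            · rw [ht1]
              exact Finset.mem_coe.mpr (hf' a' ha2)
            · rw [g2, ht1]
          apply hF t ht (f a) (hf a ha1)
          rw [← heq a ha1, g1, hf1, heq a' ha2, g3]
      rw [Finset.card_product, Finset.card_product, Finset.card_range, Finset.card_range] at h2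
      refine h2.trans ?_
      calc n.factorial ^ 2 * (n * (F t).card) = (F t).card * (n * n.factorial ^ 2) := by ring
        _ ≤ (K t + 1) * ((n + 1) * n.factorial ^ 2) := by
          apply Nat.mul_le_mul ((hKF t).trans (Nat.le_succ _))
          exact Nat.mul_le_mul_right _ (Nat.le_succ _)
  · rintro t ht t' ht' hne f hf f' hf' a ⟨n, hn, haI, ha⟩ b ⟨m, hm, hbI, hb⟩ heq
    rcases lt_trichotomy m n with h | h | h
    · exact ha t' ht' m hm h b hbI f' hf' f hf heq.symm
    · subst h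
      exact hne (hdisj t ht t' ht' m hn hm)
    · exact hb t ht n hn h a haI f hf f' hf' heq

end Pool.Agent.H70.SqG
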